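import Pool.Agent.Helper30.DX.Gd
import Pool.Agent.Helper30.PJ.Nice

/-!
# Project DX (MP_9a4587_an): functions determined by the couplings of four copies
-/

set_option autoImplicit false
set_option linter.unusedSectionVars false

namespace Pool.Agent.Helper30.DX

open MeasureTheory Filter Topology
open Pool.Agent.Helper57.SS Pool.Agent.Helper30.PJ

/-- the exchange of the two pairs of coordinates -/
def sw {α : Type} (x : Fin 4 → α) : Fin 4 → α := ![x 1, x 0, x 3, x 2]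

section
variable {α : Type} [MeasurableSpace α]

theorem sw_meas : Measurable (sw : (Fin 4 → α) → (Fin 4 → α)) := by
  refine measurable_pi_lambda _ fun i => ?_
  fin_cases i
  · exact measurable_pi_apply 1
  · exact measurable_pi_apply 0
  · exact measurable_pi_apply 3
  · exact measurable_pi_apply 2

variable {μ : Measure α} [IsProbabilityMeasure μ] {T S : α ≃ᵐ α} {a b : ℕ → ℕ}

/-- product formula for `f` in the coordinate `0` -/
def Ind (μ : Measure α) (ρ : Measure (Fin 4 → α)) (f : α → ℝ) : Prop :=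
  ∀ u1 u2 u3 : α → ℝ, Br u1 → Br u2 → Br u3 →
    ∫ x, f4 f u1 u2 u3 x ∂ρ = (∫ x, f x ∂μ) * ((∫ x, u1 x ∂μ) * (∫ x, u2 x ∂μ) * ∫ x, u3 x ∂μ)

theorem swap_inv {ρ : Measure (Fin 4 → α)} [IsProbabilityMeasure ρ] (U : Ultrafilter ℕ)
    (hl : ∀ u : Fin 4 → α → ℝ, (∀ i, Bd (u i)) →
      Tendsto (fun n => ∫ x, Av T S a b (u 0) (u 2) (n + 1) x *
        Av T S a b (u 1) (u 3) (n + 1) x ∂μ) U (𝓝 (∫ x, ∏ i, u i (x i) ∂ρ))) :
    ρ.map sw = ρ := by
  symm
  refine ext_box fun A hA => ?_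
  rw [Measure.map_apply sw_meas (MeasurableSet.univ_pi hA)]
  have e : sw ⁻¹' (Set.univ.pi A) = Set.univ.pi ![A 1, A 0, A 3, A 2] := by
    ext x
    simp only [Set.mem_preimage, Set.mem_univ_pi, Fin.forall_fin_succ, sw]
    simp
    tauto
  rw [e]
  have hB : ∀ i, MeasurableSet ((![A 1, A 0, A 3, A 2] : Fin 4 → Set α) i) := by
    intro i
    fin_cases i
    · exact hA 1
    · exact hA 0
    · exact hA 3
    · exact hA 2
  have h1 := hl (fun i => (A i).indicator fun _ => (1 : ℝ)) (fun i => bd_ind (hA i))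
  have h2 := hl (fun i => ((![A 1, A 0, A 3, A 2] : Fin 4 → Set α) i).indicator fun _ => (1 : ℝ))
    (fun i => bd_ind (hB i))
  have h3 : Tendsto (fun n => ∫ x, Av T S a b ((A 0).indicator fun _ => (1 : ℝ))
      ((A 2).indicator fun _ => (1 : ℝ)) (n + 1) x *
        Av T S a b ((A 1).indicator fun _ => (1 : ℝ)) ((A 3).indicator fun _ => (1 : ℝ))
          (n + 1) x ∂μ) U (𝓝 (∫ x, ∏ i, ((![A 1, A 0, A 3, A 2] : Fin 4 → Set α) i).indicator
            (fun _ => (1 : ℝ)) (x i) ∂ρ)) := by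
    refine h2.congr fun n => ?_
    refine integral_congr_ae (Eventually.of_forall fun x => ?_)
    exact mul_comm _ _
  have h4 := tendsto_nhds_unique h1 h3
  rw [int_ind ρ hA, int_ind ρ hB] at h4
  rw [Measure.real, Measure.real] at h4
  exact (ENNReal.toReal_eq_toReal_iff' (measure_ne_top _ _) (measure_ne_top _ _)).1 h4

theorem ind_of_bd {ρ : Measure (Fin 4 → α)} {f : α → ℝ} (hf : Br f)
    (h : ∀ f' : α → ℝ, ∀ c : ℝ, Bd f' → f = (fun x => c * f' x) → 0 < c →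
      ∀ u1 u2 u3 : α → ℝ, Bd u1 → Bd u2 → Bd u3 →
      ∫ x, f4 f' u1 u2 u3 x ∂ρ =
        (∫ x, f' x ∂μ) * ((∫ x, u1 x ∂μ) * (∫ x, u2 x ∂μ) * ∫ x, u3 x ∂μ)) :
    Ind μ ρ f := by
  intro u1 u2 u3 k1 k2 k3
  obtain ⟨c, f', hc, hf', e⟩ := hf.scale
  obtain ⟨c1, v1, hc1, hv1, rfl⟩ := k1.scale
  obtain ⟨c2, v2, hc2, hv2, rfl⟩ := k2.scale
  obtain ⟨c3, v3, hc3, hv3, rfl⟩ := k3.scale
  have h1 := h f' c hf' e hc v1 v2 v3 hv1 hv2 hv3
  subst e
  simp_rw [integral_const_mul]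
  have e2 : ∫ x, f4 (fun x => c * f' x) (fun x => c1 * v1 x) (fun x => c2 * v2 x)
      (fun x => c3 * v3 x) x ∂ρ = (c * c1 * c2 * c3) * ∫ x, f4 f' v1 v2 v3 x ∂ρ := by
    rw [← integral_const_mul]
    refine integral_congr_ae (Eventually.of_forall fun x => ?_)
    show _ = _
    unfold f4
    ring
  rw [e2, h1]
  ring

/-- Functions determined by the couplings. -/
theorem gd_det [StandardBorelSpace α] (hW : Wp a b) (hT : Ergodic (⇑T) μ) (hS : Ergodic (⇑S) μ)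
    (hTS : ∀ x, T (S x) = S (T x)) {V : Set (α → ℝ)}
    (hV : ∀ v ∈ V, Br v ∧ Gd μ T S a b v) {u : α → ℝ} (hu : Br u)
    (h : ∀ ρ : Measure (Fin 4 → α), IsProbabilityMeasure ρ →
      (∀ A : Fin 4 → Set α, (∀ i, MeasurableSet (A i)) → (∃ i, A i = Set.univ) →
        ρ (Set.univ.pi A) = ∏ i, μ (A i)) →
      (∀ R : α ≃ᵐ α, MeasurePreserving (⇑R) μ μ → (∀ x, R (T x) = T (R x)) →
        (∀ x, R (S x) = S (R x)) → ρ.map (fun x i => R (x i)) = ρ) →
      ρ.map sw = ρ → (∀ v ∈ V, Ind μ ρ v) → Ind μ ρ u) : Gd μ T S a b u := by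
  obtain ⟨c, u', hc, hu', rfl⟩ := hu.scale
  refine Gd.smul ?_ c
  refine gd_of_bd fun u1 u2 u3 k1 k2 k3 => ?_
  simp_rw [f4_Av hu' k1 k2 k3]
  rw [← tendsto_add_atTop_iff_nat 1, tendsto_iff_ultrafilter]
  intro U hU
  obtain ⟨ρ, hρ, hl⟩ := exists_coupling (fun f _ => Br f ∧ Gd μ T S a b f) hW hT hS hTS
    (fun f g hf hg hk => conv_of_gd hW hT hS hTS hf hg hk.2) U hU
  have := hρ.prob
  have hi : Ind μ ρ (fun x => c * u' x) := by
    refine h ρ hρ.prob hρ.three (fun R h1 h2 h3 => hρ.inv R h1 (fun x => (h2 x).symm)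
      fun x => (h3 x).symm) (swap_inv U hl) fun v hv => ?_
    obtain ⟨hv1, hv2⟩ := hV v hv
    refine ind_of_bd hv1 fun v' d hv' e hd w1 w2 w3 j1 j2 j3 => ?_
    have hg' : Gd μ T S a b v' := by
      have h1 := hv2.smul d⁻¹
      have e1 : (fun x => d⁻¹ * v x) = v' := by
        rw [e]; funext x; field_simp
      rwa [e1] at h1
    have h5 := hρ.sing ![v', w1, w2, w3] (by
      intro i
      fin_cases i
      · exact hv'
      · exact j1
      · exact j2
      · exact j3) (Or.inl ⟨Br.of_bd hv', hg'⟩)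
    rw [Fin.prod_univ_four] at h5
    refine Eq.trans ?_ (h5.trans ?_)
    · refine integral_congr_ae (Eventually.of_forall fun x => ?_)
      show v' (x 0) * (w1 (x 1) * w2 (x 2) * w3 (x 3)) =
        ∏ i, (![v', w1, w2, w3] : Fin 4 → α → ℝ) i (x i)
      rw [Fin.prod_univ_four]
      show v' (x 0) * (w1 (x 1) * w2 (x 2) * w3 (x 3)) = v' (x 0) * w1 (x 1) * w2 (x 2) * w3 (x 3)
      ring
    · show (∫ x, v' x ∂μ) * (∫ x, w1 x ∂μ) * (∫ x, w2 x ∂μ) * (∫ x, w3 x ∂μ) = _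
      ring
  have hi' := hi u1 u2 u3 (Br.of_bd k1) (Br.of_bd k2) (Br.of_bd k3)
  have e3 : ∫ x, f4 (fun x => c * u' x) u1 u2 u3 x ∂ρ = c * ∫ x, f4 u' u1 u2 u3 x ∂ρ := by
    rw [← integral_const_mul]
    refine integral_congr_ae (Eventually.of_forall fun x => ?_)
    show _ = _
    unfold f4
    ring
  rw [e3, integral_const_mul, mul_assoc] at hi'
  have hi2 := mul_left_cancel₀ hc.ne' hi'
  have h6 := hl ![u', u1, u2, u3] (by
    intro i
    fin_cases i
    · exact hu'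
    · exact k1
    · exact k2
    · exact k3)
  have e4 : ∫ x, ∏ i, (![u', u1, u2, u3] : Fin 4 → α → ℝ) i (x i) ∂ρ =
      ∫ x, f4 u' u1 u2 u3 x ∂ρ := by
    refine integral_congr_ae (Eventually.of_forall fun x => ?_)
    show ∏ i, (![u', u1, u2, u3] : Fin 4 → α → ℝ) i (x i) = _
    rw [Fin.prod_univ_four]
    show u' (x 0) * u1 (x 1) * u2 (x 2) * u3 (x 3) = u' (x 0) * (u1 (x 1) * u2 (x 2) * u3 (x 3))
    ring
  rw [e4, hi2] at h6
  exact h6

end

end Pool.Agent.Helper30.DX
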