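import Pool.Agent.Helper30.DX.Ext

/-!
Double ergodic averages along two independent random sparse sequences: mean square convergence for
all exponents `a, b` in `(0,1)`, when one of the two functions belongs to a class which contains all
functions with singular spectral measure and all functions measurable for a distal factor.
-/

set_option autoImplicit false
open MeasureTheory ProbabilityTheory Filter Topology

namespace Pool.Agent.Helper30.DX.Draft

/-- Bounded functions which are measurable for `m`. -/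
def Bdd {α : Type} (m : MeasurableSpace α) (u : α → ℝ) : Prop :=
  Measurable[m] u ∧ ∃ C : ℝ, ∀ x, |u x| ≤ C

/-- `f` is a limit in `L¹(μ)` of finite linear combinations of elements of `V`. -/
def InClosedSpan {α : Type} {m0 : MeasurableSpace α} (μ : Measure α) (V : Set (α → ℝ))
    (f : α → ℝ) : Prop :=
  ∀ ε : ℝ, 0 < ε → ∃ h ∈ Submodule.span ℝ V, ∫ x, |f x - h x| ∂μ ≤ ε

/-- The function `u` has a singular spectral measure for `R`. -/
def SingularSpectrum {α : Type} {m0 : MeasurableSpace α} (μ : Measure α) (R : α → α)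
    (u : α → ℝ) : Prop :=
  ∃ σ : Measure UnitAddCircle, IsFiniteMeasure σ ∧
    (∀ n : ℕ, ∫ z, fourier (n : ℤ) z ∂σ = ((∫ x, u (R^[n] x) * u x ∂μ : ℝ) : ℂ)) ∧ σ ⟂ₘ volume

/-- The function `u` has a singular spectral measure without atoms for `R`. -/
def ContinuousSingularSpectrum {α : Type} {m0 : MeasurableSpace α} (μ : Measure α) (R : α → α)
    (u : α → ℝ) : Prop :=
  ∃ σ : Measure UnitAddCircle, IsFiniteMeasure σ ∧
    (∀ n : ℕ, ∫ z, fourier (n : ℤ) z ∂σ = ((∫ x, u (R^[n] x) * u x ∂μ : ℝ) : ℂ)) ∧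
    σ ⟂ₘ volume ∧ ∀ z, σ {z} = 0

/-- The automorphism `R` commutes with `T` and `S`. -/
def InCentralizer {α : Type} {m0 : MeasurableSpace α} (μ : Measure α) (T S R : α ≃ᵐ α) : Prop :=
  MeasurePreserving (⇑R) μ μ ∧ (∀ x, R (T x) = T (R x)) ∧ ∀ x, R (S x) = S (R x)

/-- For some sub-σ-algebra `A` with `T⁻¹ A ⊆ A` whose images under the powers of `T` generate the
whole σ-algebra (`Tinv` is the inverse of `T`), the conditional expectation of `u` on `⋂ T⁻ⁿ A`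
vanishes. -/
def ZeroOnTail {α : Type} {m0 : MeasurableSpace α} (μ : Measure α) (T Tinv : α → α)
    (u : α → ℝ) : Prop :=
  ∃ A : MeasurableSpace α, A ≤ m0 ∧ A.comap T ≤ A ∧ m0 ≤ ⨆ n : ℕ, A.comap (Tinv^[n]) ∧
    μ[u | ⨅ n : ℕ, A.comap (T^[n])] =ᵐ[μ] 0

/-- The basic functions for `(T, S)`. -/
def Basic {α : Type} {m0 : MeasurableSpace α} (μ : Measure α) (T S : α ≃ᵐ α) : Set (α → ℝ) :=
  {u | Bdd m0 u ∧ (SingularSpectrum μ (⇑T) u ∨
    (∃ R : α ≃ᵐ α, InCentralizer μ T S R ∧ ContinuousSingularSpectrum μ (⇑R) u) ∨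
    (T = S ∧ ZeroOnTail μ (⇑T) (⇑T.symm) u))}

/-- `Y` contains the eigenfunctions of `R`, up to null sets. -/
def ContainsEigenfunctions {α : Type} {m0 : MeasurableSpace α} (μ : Measure α) (R : α → α)
    (Y : MeasurableSpace α) : Prop :=
  ∀ (c : ℂ) (ψ : α → ℂ), MemLp ψ 2 μ → (∀ᵐ x ∂μ, ψ (R x) = c * ψ x) →
    ∃ ψ' : α → ℂ, Measurable[Y] ψ' ∧ ψ =ᵐ[μ] ψ'

/-- `F` is a basis, orthonormal relative to `Y` and orthogonal to `Y`, of an `R`-invariant
module of finite rank over `Y`. -/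
def RelativeBasis {α : Type} {m0 : MeasurableSpace α} (μ : Measure α) (R : α → α)
    (Y : MeasurableSpace α) {n : ℕ} (F : Fin n → α → ℝ) : Prop :=
  (∀ i, Bdd m0 (F i)) ∧ (∀ i, μ[F i | Y] =ᵐ[μ] 0) ∧
  (∀ i j, μ[fun x => F i x * F j x | Y] =ᵐ[μ] fun _ => if i = j then 1 else 0) ∧
  ∃ A : Fin n → Fin n → α → ℝ, (∀ i j, Bdd Y (A i j)) ∧
    ∀ i, ∀ᵐ x ∂μ, F i (R x) = ∑ j, A i j x * F j x

/-- `Z` is an isometric (compact) extension of `Y` for `R`: the functions measurable for `Z` are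
limits of linear combinations of elements of `R`-invariant modules of finite rank over `Y`. -/
def IsometricExtension {α : Type} {m0 : MeasurableSpace α} (μ : Measure α) (R : α → α)
    (Y Z : MeasurableSpace α) : Prop :=
  ∀ u : α → ℝ, Bdd Z u → InClosedSpan μ ({w | Bdd Y w} ∪
    {v | ∃ (n : ℕ) (F : Fin n → α → ℝ) (i : Fin n) (w : α → ℝ), RelativeBasis μ R Y F ∧
      Bdd Y w ∧ v = fun x => w x * F i x}) u

/-- The σ-algebras obtained from those all of whose bounded functions are limits of linear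
combinations of basic functions by isometric extensions (for automorphisms in the centralizer) and
increasing limits. -/
inductive Tower {α : Type} {m0 : MeasurableSpace α} (μ : Measure α) (T S : α ≃ᵐ α) :
    MeasurableSpace α → Prop
  | base (Y : MeasurableSpace α) : Y ≤ m0 →
      (∀ u : α → ℝ, Bdd Y u → InClosedSpan μ (Basic μ T S) u) → Tower μ T S Y
  | extension (R : α ≃ᵐ α) (Y Z : MeasurableSpace α) : InCentralizer μ T S R → Tower μ T S Y →
      Y.comap (⇑R) ≤ Y → ContainsEigenfunctions μ (⇑R) Y → Z ≤ m0 →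
      IsometricExtension μ (⇑R) Y Z → Tower μ T S Z
  | limit (Y : ℕ → MeasurableSpace α) : Monotone Y → (∀ n, Tower μ T S (Y n)) →
      Tower μ T S (⨆ n, Y n)

/-- The structured functions for `(T, S)`. -/
def Structured {α : Type} {m0 : MeasurableSpace α} (μ : Measure α) (T S : α ≃ᵐ α)
    (f : α → ℝ) : Prop :=
  InClosedSpan μ (Basic μ T S ∪ {u | ∃ Y : MeasurableSpace α, Tower μ T S Y ∧ Bdd Y u}) f

section proof

open Pool.Agent.Helper57.SS Pool.Agent.Helper30.DX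

theorem tail_aux {α : Type} (A : MeasurableSpace α) [m0 : MeasurableSpace α] {μ : Measure α}
    [IsProbabilityMeasure μ] {T : α ≃ᵐ α} {f : α → ℝ}
    (h1 : A ≤ m0) (h2 : A.comap (⇑T) ≤ A)
    (h3 : m0 ≤ ⨆ n : ℕ, A.comap ((⇑T.symm)^[n]))
    (h4 : μ[f | ⨅ n : ℕ, A.comap ((⇑T)^[n])] =ᵐ[μ] 0) :
    Exh A T ∧ SingSpec (⇑T) μ (μ[f | Tl A T]) := by
  have z := Pool.Agent.Helper88.SS.gZP α T
  have zp1 : ∀ n : ℕ, (zp T (n : ℤ)) = (⇑T)^[n] := fun n => by
    ext x; exact z.2.1 n x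
  have zp2 : ∀ n : ℕ, (zp T (-(n : ℤ))) = (⇑T.symm)^[n] := fun n => by
    ext x; exact z.2.2.1 n x
  constructor
  · refine ⟨h1, h2, ?_⟩
    simp only [Fz, zp2]
    exact h3
  · simp only [Tl, Fz, zp1]
    refine ⟨0, ⟨inferInstance, fun n => ?_⟩, Measure.MutuallySingular.zero_left⟩
    rw [integral_zero_measure]
    have : (fun x => (μ[f | ⨅ n : ℕ, A.comap ((⇑T)^[n])]) ((⇑T)^[n] x) *
        (μ[f | ⨅ n : ℕ, A.comap ((⇑T)^[n])]) x) =ᵐ[μ] fun _ => 0 := by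
      filter_upwards [h4] with x hx
      rw [hx]
      simp
    rw [integral_congr_ae this]
    simp

section
variable {α : Type} [m0 : MeasurableSpace α] {μ : Measure α} [IsProbabilityMeasure μ]
  {T S : α ≃ᵐ α} {a b : ℕ → ℕ}

theorem gd_basic (hW : Wp a b) (ha : StrictMono a) (hb : StrictMono b) (hT : Ergodic (⇑T) μ)
    (hS : Ergodic (⇑S) μ) (hTS : ∀ x, T (S x) = S (T x)) {u : α → ℝ} (hu : u ∈ Basic μ T S) :
    Br u ∧ Gd μ T S a b u := by
  obtain ⟨hb1, h⟩ := hu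
  have hub : Br u := hb1
  refine ⟨hub, gd_of_conv hW hT hS hTS hub fun g hg => ?_⟩
  refine conv_main hW ha hb hT hS hTS (hub.memLp ⊤) (bd_memLp hg ⊤) (Or.inl ?_)
  rcases h with ⟨σ, h1, h2, h3⟩ | ⟨R, ⟨r1, r2, r3⟩, σ, h1, h2, h3, h4⟩ | ⟨rfl, A, h1, h2, h3, h4⟩
  · exact Or.inl ⟨σ, ⟨h1, h2⟩, h3⟩
  · exact Or.inr (Or.inr (Or.inl ⟨R, r1, r2, r3, Or.inl ⟨σ, ⟨h1, h2⟩, h3, h4⟩⟩))
  · refine Or.inr (Or.inr (Or.inr ⟨rfl, Or.inl ?_⟩))
    obtain ⟨k1, k2⟩ := @tail_aux α A m0 μ _ T u h1 h2 h3 h4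
    exact ⟨A, k1, k2⟩

theorem gd_span {V : Set (α → ℝ)} (hV : ∀ v ∈ V, Br v ∧ Gd μ T S a b v) {h : α → ℝ}
    (hh : h ∈ Submodule.span ℝ V) : Br h ∧ Gd μ T S a b h := by
  induction hh using Submodule.span_induction with
  | mem x hx => exact hV x hx
  | zero =>
    have h0 : Br (fun _ : α => (0 : ℝ)) := Br.const 0
    refine ⟨h0, ?_⟩
    intro u1 u2 u3 k1 k2 k3
    have e : ∀ x : Fin 4 → α, f4 (0 : α → ℝ) u1 u2 u3 x = 0 := fun x => by
      unfold f4; simp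
    simp_rw [e]
    simp
  | add x y _ _ hx hy => exact ⟨hx.1.add hy.1, hx.2.add hx.1 hy.1 hy.2⟩
  | smul c x _ hx => exact ⟨hx.1.smul c, hx.2.smul c⟩

theorem gd_closed (hT : MeasurePreserving (⇑T) μ μ) (hS : MeasurePreserving (⇑S) μ μ)
    {V : Set (α → ℝ)} (hV : ∀ v ∈ V, Br v ∧ Gd μ T S a b v) {f : α → ℝ} (hf : Br f)
    (h : InClosedSpan μ V f) : Gd μ T S a b f :=
  Gd.close hT hS hf fun ε hε => by
    obtain ⟨g, hg, hfg⟩ := h ε hε
    obtain ⟨k1, k2⟩ := gd_span hV hg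
    exact ⟨g, k1, k2, hfg⟩

theorem gd_tower (hW : Wp a b) (ha : StrictMono a) (hb : StrictMono b) (hT : Ergodic (⇑T) μ)
    (hS : Ergodic (⇑S) μ) (hTS : ∀ x, T (S x) = S (T x)) :
    ∀ Y, Tower μ T S Y → Y ≤ m0 ∧ ∀ u : α → ℝ, Bdd Y u → @Gd α m0 μ T S a b u := by
  intro Y hY
  induction hY with
  | base Y h1 h2 =>
    refine ⟨h1, fun u hu => ?_⟩
    exact @gd_closed α m0 μ _ T S a b hT.toMeasurePreserving hS.toMeasurePreserving _
      (fun v hv => @gd_basic α m0 μ _ T S a b hW ha hb hT hS hTS v hv) u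
      ⟨hu.1.mono h1 le_rfl, hu.2⟩ (h2 u hu)
  | extension R Y Z hR _ hYR hE hZ hI ih =>
    obtain ⟨r1, r2, r3⟩ := hR
    obtain ⟨hY, hG⟩ := ih
    refine ⟨hZ, fun u hu => ?_⟩
    refine @gd_closed α m0 μ _ T S a b hT.toMeasurePreserving hS.toMeasurePreserving _
      ?_ u ⟨hu.1.mono hZ le_rfl, hu.2⟩ (hI u hu)
    rintro v (hv | ⟨n, F, i, w, ⟨hF, hF0, hFF, A, hA, hFA⟩, hw, rfl⟩)
    · exact ⟨⟨hv.1.mono hY le_rfl, hv.2⟩, hG v hv⟩
    · refine ⟨@Br.mul α m0 _ _ ⟨hw.1.mono hY le_rfl, hw.2⟩ (hF i), ?_⟩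
      exact @ext_gd α Y m0 μ _ T S R a b hT.toMeasurePreserving hS.toMeasurePreserving r1
        (fun x => (r2 x).symm) (fun x => (r3 x).symm) hY hYR hE
        (fun w h1 h2 => hG w ⟨h2, h1.2⟩) n F hF hF0 hFF A
        (fun i j => ⟨(hA i j).1.mono hY le_rfl, (hA i j).2⟩) (fun i j => (hA i j).1) hFA w
        ⟨hw.1.mono hY le_rfl, hw.2⟩ hw.1 i
  | limit Y hmono _ ih =>
    refine ⟨iSup_le fun n => (ih n).1, fun u hu => ?_⟩
    exact @lim_gd α Y m0 μ _ T S a b hT.toMeasurePreserving hS.toMeasurePreserving hmono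
      (fun n => (ih n).1) (fun n w h1 h2 => (ih n).2 w ⟨h2, h1.2⟩) u
      ⟨hu.1.mono (iSup_le fun n => (ih n).1) le_rfl, hu.2⟩ hu.1

theorem conv_structured (hW : Wp a b) (ha : StrictMono a) (hb : StrictMono b)
    (hT : Ergodic (⇑T) μ) (hS : Ergodic (⇑S) μ) (hTS : ∀ x, T (S x) = S (T x)) {f g : α → ℝ}
    (hf : MemLp f ⊤ μ) (hg : MemLp g ⊤ μ) (h : Structured μ T S f) : Conv μ T S a b f g := by
  have hmT := hT.toMeasurePreserving
  have hmS := hS.toMeasurePreserving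
  obtain ⟨c, f', hc, hf', hfe⟩ := exists_bd hf
  obtain ⟨d, g', hd, hg', hge⟩ := exists_bd hg
  refine conv_scale hmT hmS hfe hge (conv_of_gd hW hT hS hTS hf' hg' ?_)
  have hV : ∀ v ∈ Basic μ T S ∪ {u | ∃ Y : MeasurableSpace α, Tower μ T S Y ∧ Bdd Y u},
      Br v ∧ Gd μ T S a b v := by
    rintro v (hv | ⟨Y, hY, hv⟩)
    · exact gd_basic hW ha hb hT hS hTS hv
    · obtain ⟨k1, k2⟩ := @gd_tower α m0 μ _ T S a b hW ha hb hT hS hTS Y hY
      exact ⟨⟨hv.1.mono k1 le_rfl, hv.2⟩, k2 v hv⟩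
  refine gd_closed hmT hmS hV (Br.of_bd hf') fun ε hε => ?_
  obtain ⟨h1, hh1, hh2⟩ := h (c * ε) (by positivity)
  refine ⟨c⁻¹ • h1, Submodule.smul_mem _ _ hh1, ?_⟩
  have e : ∫ x, |f x - h1 x| ∂μ = c * ∫ x, |f' x - (c⁻¹ • h1) x| ∂μ := by
    rw [← integral_const_mul]
    refine integral_congr_ae ?_
    filter_upwards [hfe] with x hx
    rw [hx, Pi.smul_apply, smul_eq_mul]
    have e2 : c * f' x - h1 x = c * (f' x - c⁻¹ * h1 x) := by field_simp
    rw [e2, abs_mul, abs_of_pos hc]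
  rw [e] at hh2
  exact le_of_mul_le_mul_left hh2 hc

end

end proof

/-- For all `a, b` in `(0, 1)`: almost surely, for all commuting ergodic automorphisms `T, S` of a
probability space and all bounded `f, g` such that `f` is structured for `(T, S)` or `g` is
structured for `(S, T)`, the averages of `f (T^(a_k) x) g (S^(b_k) x)` converge in `L²(μ)` to the
product of the integrals.
Here position `n` of the Lean sequences stands for the integer `n + 1`. -/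
theorem result (a b : ℝ) (ha0 : 0 < a) (ha1 : a < 1) (hb0 : 0 < b) (hb1 : b < 1)
    (Ω : Type) [MeasurableSpace Ω] (P : Measure Ω) [IsProbabilityMeasure P]
    (ξ η : ℕ → Ω → ℕ) (hξ : ∀ n, Measurable (ξ n)) (hη : ∀ n, Measurable (η n))
    (hind : iIndepFun (fun i : ℕ ⊕ ℕ => Sum.elim ξ η i) P)
    (hp : ∀ n : ℕ, P {ω | ξ n ω = 1} = ENNReal.ofReal (((n : ℝ) + 1) ^ (-a)))
    (hq : ∀ n : ℕ, P {ω | η n ω = 1} = ENNReal.ofReal (((n : ℝ) + 1) ^ (-b))) :
    ∀ᵐ ω ∂P, ∀ (α : Type) [MeasurableSpace α] (μ : Measure α) [IsProbabilityMeasure μ]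
      (T S : α ≃ᵐ α), Ergodic (⇑T) μ → Ergodic (⇑S) μ → (∀ x, T (S x) = S (T x)) →
      ∀ f g : α → ℝ, MemLp f ⊤ μ → MemLp g ⊤ μ →
      (Structured μ T S f ∨ Structured μ S T g) →
      Tendsto (fun N : ℕ => eLpNorm (fun x => (N : ℝ)⁻¹ * ∑ k ∈ Finset.range N,
          f ((⇑T)^[Nat.nth (fun n => ξ n ω = 1) k + 1] x) *
            g ((⇑S)^[Nat.nth (fun n => η n ω = 1) k + 1] x)
          - (∫ y, f y ∂μ) * (∫ y, g y ∂μ)) 2 μ) atTop (𝓝 0) := by
  filter_upwards [Pool.Agent.Helper57.SS.ae_wp ha0 ha1 hb0 hb1 ⟨hξ, hη, hind, hp, hq⟩] with ω hω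
  obtain ⟨h1, h2, h3⟩ := hω
  intro α _ μ _ T S hT hS hTS f g hf hg h
  have m1 : StrictMono fun k => Nat.nth (fun n => ξ n ω = 1) k + 1 :=
    fun i j hij => Nat.add_lt_add_right (Nat.nth_strictMono h1 hij) 1
  have m2 : StrictMono fun k => Nat.nth (fun n => η n ω = 1) k + 1 :=
    fun i j hij => Nat.add_lt_add_right (Nat.nth_strictMono h2 hij) 1
  rcases h with h | h
  · exact conv_structured h3 m1 m2 hT hS hTS hf hg h
  · exact (conv_structured (Pool.Agent.Helper4.SS.gWSY _ _ h3) m2 m1 hS hT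
      (fun x => (hTS x).symm) hg hf h).swap

end Pool.Agent.Helper30.DX.Draft
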