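import Pool.Agent.Helper57.SS.Main
import Pool.Agent.Helper57.SS.Mix

/-!
# Project DX (MP_9a4587_an): two maps, functions which vanish on the tail of a half plane
-/

set_option autoImplicit false
set_option linter.unusedSectionVars false

namespace Pool.Agent.Helper30.DX

open MeasureTheory Filter Topology
open Pool.Agent.Helper57.SS

/-- four factors bounded by one, change of all of them -/
theorem four_change {a b c d a' b' c' d' : ℝ} (hb : |b| ≤ 1) (hc : |c| ≤ 1) (hd : |d| ≤ 1)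
    (ha' : |a'| ≤ 1) (hb' : |b'| ≤ 1) (hc' : |c'| ≤ 1) :
    |a * b * (c * d) - a' * b' * (c' * d')| ≤ |a - a'| + |b - b'| + |c - c'| + |d - d'| := by
  have e : a * b * (c * d) - a' * b' * (c' * d') = (a - a') * (b * (c * d)) +
      (a' * (b - b')) * (c * d) + (a' * b' * (c - c')) * d + a' * b' * c' * (d - d') := by ring
  rw [e]
  have t : ∀ p q r s : ℝ, |p + q + r + s| ≤ |p| + |q| + |r| + |s| := by
    intro p q r s
    have h1 := abs_add_le (p + q + r) s
    have h2 := abs_add_le (p + q) r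
    have h3 := abs_add_le p q
    linarith
  refine (t _ _ _ _).trans ?_
  have h1 : |(a - a') * (b * (c * d))| ≤ |a - a'| := by
    rw [abs_mul, abs_mul, abs_mul]
    exact mul_le_of_le_one_right (abs_nonneg _) (mul_le_one₀ hb (by positivity)
      (mul_le_one₀ hc (abs_nonneg _) hd))
  have h2 : |(a' * (b - b')) * (c * d)| ≤ |b - b'| := by
    rw [abs_mul, abs_mul, abs_mul]
    calc |a'| * |b - b'| * (|c| * |d|) ≤ 1 * |b - b'| * (1 * 1) := by
          gcongr
      _ = |b - b'| := by ring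
  have h3 : |(a' * b' * (c - c')) * d| ≤ |c - c'| := by
    rw [abs_mul, abs_mul, abs_mul]
    calc |a'| * |b'| * |c - c'| * |d| ≤ 1 * 1 * |c - c'| * 1 := by
          gcongr
      _ = |c - c'| := by ring
  have h4 : |a' * b' * c' * (d - d')| ≤ |d - d'| := by
    rw [abs_mul, abs_mul, abs_mul]
    calc |a'| * |b'| * |c'| * |d - d'| ≤ 1 * 1 * 1 * |d - d'| := by
          gcongr
      _ = |d - d'| := by ring
  linarith

theorem mix4_aux {α : Type} (A : MeasurableSpace α) [m0 : MeasurableSpace α] {μ : Measure α}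
    [IsProbabilityMeasure μ] {T S : α ≃ᵐ α} (hT : MeasurePreserving (⇑T) μ μ)
    (hS : MeasurePreserving (⇑S) μ μ) (hTS : ∀ x, T (S x) = S (T x)) (hA : Exh A T.symm)
    (hAS : A.comap (⇑S) ≤ A) {f g : α → ℝ} (hf : Bd f) (hg : Bd g)
    (hz : μ[f | Tl A T.symm] =ᵐ[μ] 0) : Mix4 μ T S f g := by
  have hZP := Pool.Agent.Helper88.SS.gZP
  have hFZ := Pool.Agent.Helper13.SS.gFZ
  have hREV := Pool.Agent.Helper98.SS.gREV
  have hAPX := Pool.Agent.Helper76.SS.gAPX
  have hKM := Pool.Agent.Helper16.SS.gKM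
  obtain ⟨z0, z1, z2, z3, z4, z5, z6⟩ := hZP α T.symm
  obtain ⟨f1, f2, f3, f4, -, -⟩ := hFZ hZP α A T.symm hA
  have hle : Tl A T.symm ≤ m0 := f3
  have hif : ∫ x, f x ∂μ = 0 := int_zero_of_condExp (Tl A T.symm) hle hz
  intro ε hε
  obtain ⟨p, f', k1, k2, k3, k4⟩ := hAPX hFZ hZP α A μ T.symm hA f hf (ε / 8) (by positivity)
  obtain ⟨p', g', l1, l2, -, l4⟩ := hAPX hFZ hZP α A μ T.symm hA g hg (ε / 8) (by positivity)
  have hf'm : Measurable f' := k1.mono (f2 _) le_rfl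
  have hg'm : Measurable g' := l1.mono (f2 _) le_rfl
  have hf' : Bd f' := ⟨hf'm, k2⟩
  have hg' : Bd g' := ⟨hg'm, l2⟩
  obtain ⟨D, hD⟩ := hKM hREV hFZ hZP α A μ T.symm hA f' hf' (k3.trans hz) (ε / 2) (by positivity)
  -- powers of S
  have hS1 : ∀ (m : ℤ) (u : α → ℝ), Measurable[Fz A T.symm m] u →
      Measurable[Fz A T.symm m] (fun x => u (S x)) := by
    intro m u hu
    have e1 : MeasurableSpace.comap (⇑S) (Fz A T.symm m) ≤ Fz A T.symm m := by
      show MeasurableSpace.comap (⇑S) (MeasurableSpace.comap (zp T.symm m) A) ≤ _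
      rw [MeasurableSpace.comap_comp]
      have e2 : (zp T.symm m) ∘ (⇑S) = (⇑S) ∘ (zp T.symm m) := by
        funext x
        show zp T.symm m (S x) = S (zp T.symm m x)
        refine z6 (⇑S) (fun x => ?_) m x
        apply T.injective
        rw [MeasurableEquiv.apply_symm_apply, hTS, MeasurableEquiv.apply_symm_apply]
      rw [e2, ← MeasurableSpace.comap_comp]
      exact MeasurableSpace.comap_mono hAS
    exact hu.comp (measurable_iff_comap_le.2 e1)
  have hS2 : ∀ (n : ℕ) (m : ℤ) (u : α → ℝ), Measurable[Fz A T.symm m] u →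
      Measurable[Fz A T.symm m] (fun x => u ((⇑S)^[n] x)) := by
    intro n
    induction n with
    | zero => intro m u hu; exact hu
    | succ n ih =>
      intro m u hu
      have := hS1 m _ (ih m u hu)
      simpa [Function.iterate_succ] using this
  -- the main estimate
  have main : ∀ i j q q' : ℕ, D + p + p' < i → i + (D + p + p') < j →
      |∫ x, f' ((⇑T)^[i] x) * f' ((⇑T)^[j] x) * (g' ((⇑S)^[q] x) * g' ((⇑S)^[q'] x)) ∂μ| ≤ ε / 2 := by
    intro i j q q' hi hij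
    set v : α → ℝ := fun x => f' (zp T.symm ((j : ℤ) - i) x) *
      (g' ((⇑S)^[q] (zp T.symm (j : ℤ) x)) * g' ((⇑S)^[q'] (zp T.symm (j : ℤ) x))) with hv
    have hv1 : Measurable[Fz A T.symm (D : ℤ)] v := by
      have m1 : Measurable[Fz A T.symm (D : ℤ)] (fun x => f' (zp T.symm ((j : ℤ) - i) x)) :=
        (f4 _ _ f' k1).mono (f1 _ _ (by omega)) le_rfl
      have m2 : ∀ r : ℕ, Measurable[Fz A T.symm (D : ℤ)]
          (fun x => g' ((⇑S)^[r] (zp T.symm (j : ℤ) x))) := fun r =>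
        (f4 _ _ (fun x => g' ((⇑S)^[r] x)) (hS2 r _ g' l1)).mono (f1 _ _ (by omega)) le_rfl
      exact m1.mul ((m2 q).mul (m2 q'))
    have hv2 : ∀ x, |v x| ≤ 1 := by
      intro x
      rw [hv]
      show |_ * (_ * _)| ≤ 1
      rw [abs_mul, abs_mul]
      exact mul_le_one₀ (k2 _) (by positivity) (mul_le_one₀ (l2 _) (abs_nonneg _) (l2 _))
    have h1 := hD v hv1 hv2
    have hmj : MeasurePreserving ((⇑T)^[j]) μ μ := hT.iterate j
    have h2 : ∫ x, f' ((⇑T)^[i] x) * f' ((⇑T)^[j] x) * (g' ((⇑S)^[q] x) * g' ((⇑S)^[q'] x)) ∂μ =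
        ∫ x, f' x * v x ∂μ := by
      have e0 : MeasurePreserving ((⇑(T.symm))^[j]) μ μ := (hT.symm T).iterate j
      have hmeas : Measurable (fun x => f' ((⇑T)^[i] x) * f' ((⇑T)^[j] x) *
          (g' ((⇑S)^[q] x) * g' ((⇑S)^[q'] x))) :=
        ((hf'm.comp (T.measurable.iterate i)).mul (hf'm.comp (T.measurable.iterate j))).mul
          ((hg'm.comp (S.measurable.iterate q)).mul (hg'm.comp (S.measurable.iterate q')))
      have e1 := integral_map (μ := μ) e0.measurable.aemeasurable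
        (f := fun x => f' ((⇑T)^[i] x) * f' ((⇑T)^[j] x) * (g' ((⇑S)^[q] x) * g' ((⇑S)^[q'] x)))
        hmeas.aestronglyMeasurable
      rw [e0.map_eq] at e1
      rw [e1]
      refine integral_congr_ae (Eventually.of_forall fun x => ?_)
      have inv : ∀ (n : ℕ) (y : α), (⇑T)^[n] ((⇑(T.symm))^[n] y) = y := fun n y =>
        (Function.LeftInverse.iterate (g := ⇑T) (f := ⇑(T.symm)) T.apply_symm_apply n) y
      have e2 : (⇑T)^[j] ((⇑(T.symm))^[j] x) = x := inv j x
      have e3 : (⇑T)^[i] ((⇑(T.symm))^[j] x) = zp T.symm ((j : ℤ) - i) x := by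
        obtain ⟨l, hl⟩ : ∃ l : ℕ, j = i + l := ⟨j - i, by omega⟩
        subst hl
        rw [Function.iterate_add_apply, inv]
        have : ((i + l : ℕ) : ℤ) - i = (l : ℤ) := by push_cast; ring
        rw [this, z1]
      have e4 : zp T.symm (j : ℤ) x = (⇑(T.symm))^[j] x := z1 j x
      show f' ((⇑T)^[i] ((⇑(T.symm))^[j] x)) * f' ((⇑T)^[j] ((⇑(T.symm))^[j] x)) *
        (g' ((⇑S)^[q] ((⇑(T.symm))^[j] x)) * g' ((⇑S)^[q'] ((⇑(T.symm))^[j] x))) = f' x * v x
      rw [e2, e3, hv]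
      simp only
      rw [e4]
      ring
    rw [h2]
    exact h1
  refine ⟨D + p + p', fun i j q q' hi hj _ _ hij _ _ _ _ _ => ?_⟩
  rw [hif]
  have e0 : (0 : ℝ) ^ 2 * (∫ x, g x ∂μ) ^ 2 = 0 := by ring
  rw [e0, sub_zero]
  have hsmall : |∫ x, f' ((⇑T)^[i] x) * f' ((⇑T)^[j] x) *
      (g' ((⇑S)^[q] x) * g' ((⇑S)^[q'] x)) ∂μ| ≤ ε / 2 := by
    rcases lt_trichotomy i j with h | h | h
    · refine main i j q q' hi ?_
      rw [abs_sub_comm, abs_of_pos (by omega)] at hij
      omega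
    · subst h
      rw [sub_self, abs_zero] at hij
      omega
    · have := main j i q q' hj (by
        rw [abs_of_pos (by omega)] at hij
        omega)
      refine le_trans (le_of_eq ?_) this
      congr 1
      refine integral_congr_ae (Eventually.of_forall fun x => ?_)
      show _ = _
      ring
  have hdiff : |∫ x, f ((⇑T)^[i] x) * f ((⇑T)^[j] x) * (g ((⇑S)^[q] x) * g ((⇑S)^[q'] x)) ∂μ -
      ∫ x, f' ((⇑T)^[i] x) * f' ((⇑T)^[j] x) * (g' ((⇑S)^[q] x) * g' ((⇑S)^[q'] x)) ∂μ| ≤ ε / 2 := by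
    rw [← integral_sub (bd_int (hf.prod4 hg i j q q')) (bd_int (hf'.prod4 hg' i j q q')),
      ← Real.norm_eq_abs]
    have hbd : ∀ {u u' : α → ℝ} (_ : Bd u) (_ : Bd u') {W : α → α} (_ : MeasurePreserving W μ μ),
        Integrable (fun x => |u (W x) - u' (W x)|) μ ∧
        ∫ x, |u (W x) - u' (W x)| ∂μ = ∫ x, |u x - u' x| ∂μ := by
      intro u u' hu hu' W hW
      have hm : Measurable (fun x => |u x - u' x|) := (hu.1.sub hu'.1).abs
      have hi : Integrable (fun x => |u x - u' x|) μ := ((bd_int hu).sub (bd_int hu')).abs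
      refine ⟨hW.integrable_comp_of_integrable hi, ?_⟩
      have e1 := integral_map (μ := μ) hW.measurable.aemeasurable (f := fun x => |u x - u' x|)
        hm.aestronglyMeasurable
      rw [hW.map_eq] at e1
      exact e1.symm
    obtain ⟨a1, a2⟩ := hbd hf hf' (hT.iterate i)
    obtain ⟨a3, a4⟩ := hbd hf hf' (hT.iterate j)
    obtain ⟨a5, a6⟩ := hbd hg hg' (hS.iterate q)
    obtain ⟨a7, a8⟩ := hbd hg hg' (hS.iterate q')
    refine (norm_integral_le_of_norm_le (((a1.add a3).add a5).add a7)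
      (Eventually.of_forall fun x => ?_)).trans ?_
    · rw [Real.norm_eq_abs]
      exact four_change (hf.2 _) (hg.2 _) (hg.2 _) (hf'.2 _) (hf'.2 _) (hg'.2 _)
    · have e1 : ∫ x, (((fun x => |f ((⇑T)^[i] x) - f' ((⇑T)^[i] x)|) +
          (fun x => |f ((⇑T)^[j] x) - f' ((⇑T)^[j] x)|) +
          (fun x => |g ((⇑S)^[q] x) - g' ((⇑S)^[q] x)|) +
          (fun x => |g ((⇑S)^[q'] x) - g' ((⇑S)^[q'] x)|)) x) ∂μ =
          ∫ x, |f x - f' x| ∂μ + ∫ x, |f x - f' x| ∂μ + ∫ x, |g x - g' x| ∂μ +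
            ∫ x, |g x - g' x| ∂μ := by
        rw [integral_add' ((a1.add a3).add a5) a7, integral_add' (a1.add a3) a5,
          integral_add' a1 a3, a2, a4, a6, a8]
      rw [e1]
      linarith
  have t1 := abs_sub_abs_le_abs_sub
    (∫ x, f ((⇑T)^[i] x) * f ((⇑T)^[j] x) * (g ((⇑S)^[q] x) * g ((⇑S)^[q'] x)) ∂μ)
    (∫ x, f' ((⇑T)^[i] x) * f' ((⇑T)^[j] x) * (g' ((⇑S)^[q] x) * g' ((⇑S)^[q'] x)) ∂μ)
  linarith

end Pool.Agent.Helper30.DX
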