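import Pool.Agent.Helper30.DX.Step

/-!
# Project DX (MP_9a4587_an): isometric extensions and limits
-/

set_option autoImplicit false
set_option linter.unusedSectionVars false

namespace Pool.Agent.Helper30.DX

open MeasureTheory Filter Topology
open Pool.Agent.Helper57.SS Pool.Agent.Helper30.PJ

theorem mY_mul {α : Type} {Y : MeasurableSpace α} {v w : α → ℝ} (hv : Measurable[Y] v)
    (hw : Measurable[Y] w) : Measurable[Y] (fun x => v x * w x) := hv.mul hw

theorem mY_sum {α : Type} {Y : MeasurableSpace α} (n : ℕ) {v : Fin n → α → ℝ}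
    (hv : ∀ i, Measurable[Y] (v i)) : Measurable[Y] (fun x => ∑ i, v i x) :=
  Finset.measurable_fun_sum _ fun i _ => hv i

theorem mY_re {α : Type} {Y : MeasurableSpace α} {v : α → ℂ} (hv : Measurable[Y] v) :
    Measurable[Y] (fun x => (v x).re) := Complex.measurable_re.comp hv

theorem mY_im {α : Type} {Y : MeasurableSpace α} {v : α → ℂ} (hv : Measurable[Y] v) :
    Measurable[Y] (fun x => (v x).im) := Complex.measurable_im.comp hv

theorem mY_comp {α : Type} {Y : MeasurableSpace α} {R : α → α} (hR : Y.comap R ≤ Y) {v : α → ℝ}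
    (hv : Measurable[Y] v) : Measurable[Y] (fun x => v (R x)) :=
  hv.comp (measurable_iff_comap_le.2 hR)

theorem mY_clip {α : Type} {Y : MeasurableSpace α} {v : α → ℝ} (hv : Measurable[Y] v) (C : ℝ) :
    Measurable[Y] (fun x => max (-C) (min C (v x))) :=
  measurable_const.max (measurable_const.min hv)

section
variable {α : Type} {Y : MeasurableSpace α} [m0 : MeasurableSpace α] {μ : Measure α}
  [IsProbabilityMeasure μ]

theorem int_condExp_mul (hY : Y ≤ m0) {φ G : α → ℝ}
    (hφ : Measurable[Y] φ) (hG : Integrable G μ) (hφG : Integrable (fun x => φ x * G x) μ) :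
    ∫ x, φ x * G x ∂μ = ∫ x, φ x * (μ[G | Y]) x ∂μ := by
  have h1 : μ[φ * G | Y] =ᵐ[μ] φ * μ[G | Y] :=
    condExp_mul_of_stronglyMeasurable_left hφ.stronglyMeasurable hφG hG
  have h2 := integral_condExp hY (μ := μ) (f := φ * G)
  rw [integral_congr_ae h1] at h2
  exact h2.symm

theorem orth (hY : Y ≤ m0) {φ G : α → ℝ}
    (hφ : Measurable[Y] φ) (hφi : Integrable φ μ) (hG : Br G) (hG0 : μ[G | Y] =ᵐ[μ] 0) :
    ∫ x, φ x * G x ∂μ = 0 := by
  obtain ⟨C, hC0, hC⟩ := hG.pos
  have hφG : Integrable (fun x => φ x * G x) μ :=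
    hφi.mul_bdd (c := C) hG.1.aestronglyMeasurable
      (Eventually.of_forall fun x => by rw [Real.norm_eq_abs]; exact hC x)
  rw [int_condExp_mul hY hφ hG.int hφG]
  have : (fun x => φ x * (μ[G | Y]) x) =ᵐ[μ] fun _ => 0 := by
    filter_upwards [hG0] with x hx
    rw [hx]
    simp
  rw [integral_congr_ae this]
  simp

variable {T S R : α ≃ᵐ α} {a b : ℕ → ℕ}

theorem ext_gd (hT : MeasurePreserving (⇑T) μ μ) (hS : MeasurePreserving (⇑S) μ μ)
    (hR : MeasurePreserving (⇑R) μ μ) (hRT : ∀ x, T (R x) = R (T x))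
    (hRS : ∀ x, S (R x) = R (S x)) (hY : Y ≤ m0)
    (hYR : Y.comap (⇑R) ≤ Y)
    (hE : ∀ (c : ℂ) (ψ : α → ℂ), MemLp ψ 2 μ → (∀ᵐ x ∂μ, ψ (R x) = c * ψ x) →
      ∃ ψ' : α → ℂ, Measurable[Y] ψ' ∧ ψ =ᵐ[μ] ψ')
    (hG : ∀ w, Br w → Measurable[Y] w → Gd μ T S a b w) {n : ℕ} {F : Fin n → α → ℝ}
    (hF : ∀ i, Br (F i)) (hF0 : ∀ i, μ[F i | Y] =ᵐ[μ] 0)
    (hFF : ∀ i j, μ[fun x => F i x * F j x | Y] =ᵐ[μ] fun _ => if i = j then 1 else 0)
    {A : Fin n → Fin n → α → ℝ} (hA : ∀ i j, Br (A i j)) (hAY : ∀ i j, Measurable[Y] (A i j))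
    (hFA : ∀ i, ∀ᵐ x ∂μ, F i (R x) = ∑ j, A i j x * F j x) {w : α → ℝ} (hw : Br w)
    (hwY : Measurable[Y] w) (i : Fin n) : Gd μ T S a b (fun x => w x * F i x) := by
  classical
  set c0 : Fin n → α → ℝ := fun j x => if j = i then w x else 0 with hc0
  have hsum : ∀ x, ∑ j, c0 j x * F j x = w x * F i x := by
    intro x
    rw [hc0]
    simp
  have hc0P : ∀ j, Br (c0 j) ∧ Measurable[Y] (c0 j) := by
    intro j
    rw [hc0]
    by_cases h : j = i
    · simp only [h, if_true]
      exact ⟨hw, hwY⟩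
    · simp only [h, if_false]
      exact ⟨Br.const 0, @measurable_const _ _ _ Y _⟩
  have hno : NoEig μ R (fun x => w x * F i x) := by
    intro c ψ hψ hψR
    obtain ⟨ψ', hψ', hψe⟩ := hE c ψ hψ hψR
    have hψL : MemLp ψ' 2 μ := hψ.ae_eq hψe
    have hre : MemLp (fun x => (ψ' x).re) 2 μ := hψL.re
    have him : MemLp (fun x => (ψ' x).im) 2 μ := hψL.im
    obtain ⟨C, hC0, hC⟩ := hw.pos
    have hwre : Integrable (fun x => w x * (ψ' x).re) μ :=
      (memLp_one_iff_integrable.1 (hre.mono_exponent one_le_two)).bdd_mul (c := C) hw.1.aestronglyMeasurable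
        (Eventually.of_forall fun x => by rw [Real.norm_eq_abs]; exact hC x)
    have hwim : Integrable (fun x => w x * (ψ' x).im) μ :=
      (memLp_one_iff_integrable.1 (him.mono_exponent one_le_two)).bdd_mul (c := C) hw.1.aestronglyMeasurable
        (Eventually.of_forall fun x => by rw [Real.norm_eq_abs]; exact hC x)
    have o1 := orth hY (mY_mul hwY (mY_re hψ')) hwre (hF i) (hF0 i)
    have o2 := orth hY (mY_mul hwY (mY_im hψ')) hwim (hF i) (hF0 i)
    obtain ⟨D, hD0, hD⟩ := (hF i).pos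
    have j1 : Integrable (fun x => w x * (ψ' x).re * F i x) μ :=
      hwre.mul_bdd (c := D) (hF i).1.aestronglyMeasurable
        (Eventually.of_forall fun x => by rw [Real.norm_eq_abs]; exact hD x)
    have j2 : Integrable (fun x => w x * (ψ' x).im * F i x) μ :=
      hwim.mul_bdd (c := D) (hF i).1.aestronglyMeasurable
        (Eventually.of_forall fun x => by rw [Real.norm_eq_abs]; exact hD x)
    have e1 : ∫ x, ((w x * F i x : ℝ) : ℂ) * ψ x ∂μ =
        ∫ x, (((w x * (ψ' x).re * F i x : ℝ) : ℂ) + ((w x * (ψ' x).im * F i x : ℝ) : ℂ) * Complex.I) ∂μ := by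
      refine integral_congr_ae ?_
      filter_upwards [hψe] with x hx
      rw [hx]
      apply Complex.ext
      · simp
        ring
      · simp
        ring
    rw [e1, integral_add j1.ofReal (j2.ofReal.mul_const _), integral_mul_const,
      integral_complex_ofReal, integral_complex_ofReal, o1, o2]
    simp
  have hwmF := wm hR (hw.mul (hF i)) hno
  have hzero : ∫ x, w x * F i x ∂μ = 0 := orth hY hwY hw.int (hF i) (hF0 i)
  have key := step (P := fun w => Br w ∧ Measurable[Y] w) (F := F) (A := A) (c0 := c0)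
    (a := a) (b := b) hT hS hR hRT hRS
    (fun w h => ⟨h.1.comp R.measurable, mY_comp hYR h.2⟩)
    (fun v w h1 h2 => ⟨h1.1.mul h2.1, mY_mul h1.2 h2.2⟩)
    (fun n v h => ⟨Br.sum _ fun i _ => (h i).1, mY_sum n fun i => (h i).2⟩)
    (fun w h => h.1) (fun w h => hG w h.1 h.2) hF (fun i j => ⟨hA i j, hAY i j⟩) hFA
    (fun i j w h => by
      have hb := (hF i).mul (hF j)
      rw [int_condExp_mul hY h.2 hb.int (h.1.mul hb).int]
      have : (fun x => w x * (μ[fun x => F i x * F j x | Y]) x) =ᵐ[μ]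
          fun x => w x * (if i = j then 1 else 0) := by
        filter_upwards [hFF i j] with x hx
        rw [hx]
      rw [integral_congr_ae this]
      by_cases hij : i = j
      · simp [hij]
      · simp [hij]) hc0P (by
      simp_rw [hsum]
      exact hwmF) (by
      simp_rw [hsum]
      exact hzero)
  have e : (fun x => w x * F i x) = fun x => ∑ j, c0 j x * F j x := by
    funext x
    exact (hsum x).symm
  rw [e]
  exact key

end

section
variable {α : Type} {Y : ℕ → MeasurableSpace α} [m0 : MeasurableSpace α] {μ : Measure α}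
  [IsProbabilityMeasure μ] {T S : α ≃ᵐ α} {a b : ℕ → ℕ}

/-- increasing limits -/
theorem lim_gd (hT : MeasurePreserving (⇑T) μ μ) (hS : MeasurePreserving (⇑S) μ μ)
    (hmono : Monotone Y) (hle : ∀ n, Y n ≤ m0)
    (hG : ∀ n w, Br w → Measurable[Y n] w → Gd μ T S a b w) {f : α → ℝ} (hf : Br f)
    (hfY : Measurable[⨆ n, Y n] f) : Gd μ T S a b f := by
  obtain ⟨C, hC0, hC⟩ := hf.pos
  refine Gd.close hT hS hf fun ε hε => ?_
  set ℱ : Filtration ℕ m0 := ⟨Y, hmono, hle⟩ with hℱ
  have hlim := Integrable.tendsto_eLpNorm_condExp (μ := μ) (ℱ := ℱ) hf.int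
    (hfY.stronglyMeasurable)
  have hev := hlim.eventually (gt_mem_nhds (show (0 : ENNReal) < ENNReal.ofReal ε from
    ENNReal.ofReal_pos.2 hε))
  obtain ⟨n, hn⟩ := hev.exists
  set E : α → ℝ := μ[f | Y n] with hE
  have hEm : Measurable[Y n] E := stronglyMeasurable_condExp.measurable
  have hgY := mY_clip hEm C
  have hgb : Br (fun x => max (-C) (min C (E x))) := by
    refine ⟨hgY.mono (hle n) le_rfl, C, fun x => ?_⟩
    rw [abs_le]
    exact ⟨le_max_left _ _, max_le (by linarith) (min_le_left _ _)⟩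
  refine ⟨_, hgb, hG n _ hgb hgY, ?_⟩
  have hEi : Integrable E μ := integrable_condExp
  have hcl : ∀ x, |f x - max (-C) (min C (E x))| ≤ |E x - f x| := by
    intro x
    have h1 := abs_le.1 (hC x)
    rcases le_total C (E x) with h2 | h2
    · rw [min_eq_left h2, max_eq_right (by linarith)]
      rw [abs_of_nonpos (by linarith [h1.2]), abs_of_nonneg (by linarith [h1.2])]
      linarith
    · rw [min_eq_right h2]
      rcases le_total (-C) (E x) with h3 | h3
      · rw [max_eq_right h3, abs_sub_comm]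
      · rw [max_eq_left h3, abs_of_nonneg (by linarith [h1.1]), abs_of_nonpos (by linarith [h1.1])]
        linarith
  calc ∫ x, |f x - max (-C) (min C (E x))| ∂μ ≤ ∫ x, |E x - f x| ∂μ :=
        integral_mono_of_nonneg (Eventually.of_forall fun x => abs_nonneg _)
          (hEi.sub hf.int).abs (Eventually.of_forall hcl)
    _ ≤ ε := by
        have h1 : eLpNorm (μ[f | ℱ n] - f) 1 μ ≤ ENNReal.ofReal ε := hn.le
        rw [eLpNorm_one_eq_lintegral_enorm] at h1
        have h2 := ENNReal.toReal_le_of_le_ofReal hε.le h1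
        rw [← integral_norm_eq_lintegral_enorm (hEi.sub hf.int).1] at h2
        exact h2

end

end Pool.Agent.Helper30.DX
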