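import Pool.Agent.Helper57.SS.Main

/-!
# Project DX (MP_9a4587_an): functions orthogonal to the eigenfunctions (Wiener's lemma)
-/

set_option autoImplicit false
set_option linter.unusedSectionVars false

namespace Pool.Agent.Helper30.DX

open MeasureTheory Filter Topology
open Pool.Agent.Helper57.SS Pool.Agent.Helper89.SS
open scoped ComplexConjugate

/-- Wiener's lemma. -/
theorem wiener (σ : Measure Ci) [IsFiniteMeasure σ] (hσ : ∀ θ, σ {θ} = 0) (r : ℤ → ℝ)
    (hr : ∀ k : ℤ, ∫ z, fourier k z ∂σ = ((r k : ℝ) : ℂ)) :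
    Tendsto (fun n : ℕ => ((n : ℝ) ^ 2)⁻¹ * ∑ m ∈ Finset.range n, ∑ m' ∈ Finset.range n,
      (r ((m : ℤ) - m')) ^ 2) atTop (𝓝 0) := by
  have hcont : ∀ n : ℕ, Continuous fun p : Ci × Ci => DK (-p.2) n p.1 := by
    intro n
    unfold DK
    refine continuous_const.mul (continuous_finsetSum _ fun m _ => ?_)
    exact ((map_continuous (fourier (-(m : ℤ)))).comp continuous_snd.neg).mul
      ((map_continuous (fourier (m : ℤ))).comp continuous_fst)
  have hDK : ∀ (n : ℕ) (p : Ci × Ci), ((‖DK (-p.2) n p.1‖ ^ 2 : ℝ) : ℂ) =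
      ((n : ℂ) ^ 2)⁻¹ * ∑ m ∈ Finset.range n, ∑ m' ∈ Finset.range n,
        (fourier ((m : ℤ) - m') p.1 * fourier ((m : ℤ) - m') p.2 : ℂ) := by
    intro n p
    have h1 : ∀ m : ℕ, (fourier (-(m : ℤ)) (-p.2) * fourier (m : ℤ) p.1 : ℂ) =
        fourier (m : ℤ) p.2 * fourier (m : ℤ) p.1 := by
      intro m
      congr 1
      rw [fourier_apply, fourier_apply]
      congr 2
      rw [smul_neg, neg_smul, neg_neg]
    have h2 : (DK (-p.2) n p.1) = (n : ℂ)⁻¹ * ∑ m ∈ Finset.range n,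
        (fourier (m : ℤ) p.2 * fourier (m : ℤ) p.1 : ℂ) := by
      unfold DK
      congr 1
      exact Finset.sum_congr rfl fun m _ => h1 m
    have h3 : ((‖DK (-p.2) n p.1‖ ^ 2 : ℝ) : ℂ) = DK (-p.2) n p.1 * conj (DK (-p.2) n p.1) := by
      rw [Complex.mul_conj, Complex.normSq_eq_norm_sq]
    rw [h3, h2, map_mul, map_sum, map_inv₀, Complex.conj_natCast, mul_mul_mul_comm,
      Finset.sum_mul_sum, ← mul_inv, ← sq]
    congr 1
    refine Finset.sum_congr rfl fun m _ => Finset.sum_congr rfl fun m' _ => ?_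
    rw [map_mul]
    have h4 : ∀ x : Ci, (fourier ((m : ℤ) - m') x : ℂ) = fourier (m : ℤ) x * conj (fourier (m' : ℤ) x : ℂ) := by
      intro x
      rw [sub_eq_add_neg, fourier_add, fourier_neg]
    rw [h4, h4]
    ring
  have hfi : ∀ k : ℤ, Integrable (fun z : Ci => (fourier k z : ℂ)) σ := fun k =>
    Integrable.of_bound (measurable_fourier k).aestronglyMeasurable 1
      (Eventually.of_forall fun z => (norm_fourier k z).le)
  have hfi2 : ∀ k : ℤ, Integrable (fun p : Ci × Ci => (fourier k p.1 * fourier k p.2 : ℂ))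
      (σ.prod σ) := fun k => (hfi k).mul_prod (hfi k)
  have key : ∀ n : ℕ, ((n : ℝ) ^ 2)⁻¹ * ∑ m ∈ Finset.range n, ∑ m' ∈ Finset.range n,
      (r ((m : ℤ) - m')) ^ 2 = ∫ p : Ci × Ci, ‖DK (-p.2) n p.1‖ ^ 2 ∂(σ.prod σ) := by
    intro n
    apply Complex.ofReal_injective
    rw [← integral_complex_ofReal]
    simp_rw [hDK n]
    rw [integral_const_mul, integral_finsetSum (Finset.range n) fun (m : ℕ) _ =>
      integrable_finsetSum (Finset.range n) fun (m' : ℕ) _ => hfi2 ((m : ℤ) - (m' : ℤ))]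
    push_cast
    congr 1
    refine Finset.sum_congr rfl fun m _ => ?_
    rw [integral_finsetSum (Finset.range n) fun (m' : ℕ) _ => hfi2 ((m : ℤ) - (m' : ℤ))]
    refine Finset.sum_congr rfl fun m' _ => ?_
    rw [integral_prod_mul (fun z : Ci => (fourier ((m : ℤ) - m') z : ℂ))
      (fun z : Ci => (fourier ((m : ℤ) - m') z : ℂ)), hr]
    ring
  simp_rw [key]
  have hDm : MeasurableSet {p : Ci × Ci | p.1 = -p.2} :=
    measurableSet_eq_fun measurable_fst measurable_snd.neg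
  have hD : (σ.prod σ) {p : Ci × Ci | p.1 = -p.2} = 0 := by
    rw [Measure.measure_prod_null hDm]
    refine Eventually.of_forall fun x => ?_
    have : Prod.mk x ⁻¹' {p : Ci × Ci | p.1 = -p.2} = {-x} := by
      ext w
      simp only [Set.mem_preimage, Set.mem_ofPred_eq, Set.mem_singleton_iff]
      constructor
      · intro h; rw [h, neg_neg]
      · intro h; rw [h, neg_neg]
    show σ (Prod.mk x ⁻¹' {p : Ci × Ci | p.1 = -p.2}) = 0
    rw [this]
    exact hσ _
  have h0 : ∫ p : Ci × Ci, (0 : ℝ) ∂(σ.prod σ) = 0 := by simp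
  rw [← h0]
  refine tendsto_integral_of_dominated_convergence (fun _ => (1 : ℝ))
    (fun n => ((hcont n).norm.pow 2).aestronglyMeasurable) (integrable_const _)
    (fun n => Eventually.of_forall fun p => ?_) ?_
  · rw [Real.norm_eq_abs, abs_of_nonneg (sq_nonneg _)]
    exact pow_le_one₀ (norm_nonneg _) (norm_DK _ _ _)
  · have hae : ∀ᵐ p ∂(σ.prod σ), ¬ (p.1 = -p.2) := by
      rw [ae_iff]
      simpa using hD
    filter_upwards [hae] with p hp
    have h1 := tendsto_DK (-p.2) p.1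
    rw [if_neg hp] at h1
    have h2 := h1.norm.pow 2
    simpa using h2

section
variable {α : Type} [MeasurableSpace α] {μ : Measure α} [IsProbabilityMeasure μ] {R : α ≃ᵐ α}

/-- bounded measurable functions -/
def Br {α : Type} [MeasurableSpace α] (u : α → ℝ) : Prop := Measurable u ∧ ∃ C : ℝ, ∀ x, |u x| ≤ C

/-- orthogonal to all eigenfunctions -/
def NoEig (μ : Measure α) (R : α → α) (f : α → ℝ) : Prop :=
  ∀ (c : ℂ) (ψ : α → ℂ), MemLp ψ 2 μ → (∀ᵐ x ∂μ, ψ (R x) = c * ψ x) → ∫ x, (f x : ℂ) * ψ x ∂μ = 0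

/-- no atoms -/
theorem no_atoms (hR : MeasurePreserving (⇑R) μ μ) {f : α → ℝ} (hf : Bd f)
    (h0 : NoEig μ R f) {σ : Measure Ci} [IsFiniteMeasure σ]
    (hσ : ∀ k : ℤ, ∫ z, fourier k z ∂σ = ((rr R μ f k : ℝ) : ℂ)) (θ : Ci) : σ {θ} = 0 := by
  have hfm : ∀ m : ℕ, Measurable fun x => f ((⇑R)^[m] x) := fun m =>
    hf.1.comp (R.measurable.iterate m)
  obtain ⟨ψ, hψ, hψR, hlim⟩ := Pool.Agent.Helper23.SS.gVNT α μ (⇑R) hR f hf θ
  have hz : ∫ x, (f x : ℂ) * ψ x ∂μ = 0 := h0 _ ψ hψ hψR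
  set G : ℕ → α → ℂ := fun M x => (M : ℂ)⁻¹ * ∑ m ∈ Finset.range M,
    fourier (-(m : ℤ)) θ * ((f ((⇑R)^[m] x) : ℝ) : ℂ) with hG
  have hGm : ∀ M, Measurable (G M) := fun M => by
    rw [hG]
    exact (Finset.measurable_fun_sum _ fun m _ =>
      (Complex.measurable_ofReal.comp (hfm m)).const_mul _).const_mul _
  have hfc : Measurable fun x => ((f x : ℝ) : ℂ) := Complex.measurable_ofReal.comp hf.1
  have hGb : ∀ M x, ‖G M x‖ ≤ 1 := by
    intro M x
    rw [hG]
    simp only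
    rw [norm_mul, norm_inv, Complex.norm_natCast]
    rcases Nat.eq_zero_or_pos M with rfl | hM
    · simp
    · have hM' : (0 : ℝ) < M := by exact_mod_cast hM
      rw [inv_mul_le_iff₀ hM', mul_one]
      refine (norm_sum_le _ _).trans ?_
      calc ∑ m ∈ Finset.range M, ‖(fourier (-(m : ℤ)) θ * ((f ((⇑R)^[m] x) : ℝ) : ℂ) : ℂ)‖ ≤
          ∑ m ∈ Finset.range M, (1 : ℝ) := by
            refine Finset.sum_le_sum fun m _ => ?_
            rw [norm_mul, norm_fourier, one_mul, Complex.norm_real, Real.norm_eq_abs]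
            exact hf.2 _
        _ = M := by simp
  have hGL : ∀ M, MemLp (G M) 2 μ := fun M =>
    MemLp.of_bound (hGm M).aestronglyMeasurable 1 (Eventually.of_forall (hGb M))
  have hfL : MemLp (fun x => ((f x : ℝ) : ℂ)) 2 μ :=
    MemLp.of_bound hfc.aestronglyMeasurable 1 (Eventually.of_forall fun x => by
      rw [Complex.norm_real, Real.norm_eq_abs]; exact hf.2 x)
  -- first limit
  have l1 : Tendsto (fun M => ∫ x, ((f x : ℝ) : ℂ) * G M x ∂μ) atTop (𝓝 0) := by
    have h1 : ∀ M, ∫ x, ((f x : ℝ) : ℂ) * G M x ∂μ = ∫ x, ((f x : ℝ) : ℂ) * (G M x - ψ x) ∂μ := by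
      intro M
      have i1 : Integrable (fun x => ((f x : ℝ) : ℂ) * G M x) μ := (hGL M).integrable_mul hfL |>.congr
        (Eventually.of_forall fun x => mul_comm _ _)
      have i2 : Integrable (fun x => ((f x : ℝ) : ℂ) * ψ x) μ := hψ.integrable_mul hfL |>.congr
        (Eventually.of_forall fun x => mul_comm _ _)
      have : ∫ x, ((f x : ℝ) : ℂ) * (G M x - ψ x) ∂μ =
          ∫ x, ((f x : ℝ) : ℂ) * G M x ∂μ - ∫ x, ((f x : ℝ) : ℂ) * ψ x ∂μ := by
        rw [← integral_sub i1 i2]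
        refine integral_congr_ae (Eventually.of_forall fun x => ?_)
        show _ = _
        ring
      rw [this, hz, sub_zero]
    simp_rw [h1]
    refine squeeze_zero_norm (a := fun M => (eLpNorm (fun x => G M x - ψ x) 2 μ).toReal)
      (fun M => ?_) ?_
    · have hmm : AEStronglyMeasurable (fun x => ((f x : ℝ) : ℂ) * (G M x - ψ x)) μ :=
        hfc.aestronglyMeasurable.mul ((hGL M).1.sub hψ.1)
      have h4 : ‖∫ x, ((f x : ℝ) : ℂ) * (G M x - ψ x) ∂μ‖ₑ ≤ eLpNorm (fun x => G M x - ψ x) 2 μ := by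
        calc ‖∫ x, ((f x : ℝ) : ℂ) * (G M x - ψ x) ∂μ‖ₑ ≤
            ∫⁻ x, ‖((f x : ℝ) : ℂ) * (G M x - ψ x)‖ₑ ∂μ := enorm_integral_le_lintegral_enorm _
          _ = eLpNorm (fun x => ((f x : ℝ) : ℂ) * (G M x - ψ x)) 1 μ :=
              eLpNorm_one_eq_lintegral_enorm.symm
          _ ≤ eLpNorm (fun x => ((f x : ℝ) : ℂ) * (G M x - ψ x)) 2 μ :=
              eLpNorm_le_eLpNorm_of_exponent_le (by norm_num) hmm
          _ ≤ _ := eLpNorm_mono fun x => by
              rw [norm_mul, Complex.norm_real, Real.norm_eq_abs]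
              exact mul_le_of_le_one_left (norm_nonneg _) (hf.2 x)
      have h5 := ENNReal.toReal_mono ((hGL M).sub hψ).2.ne h4
      rwa [toReal_enorm] at h5
    · have := (ENNReal.tendsto_toReal ENNReal.zero_ne_top).comp hlim
      rw [ENNReal.toReal_zero] at this
      exact this
  -- second limit
  have l2 : Tendsto (fun M => ∫ z, DK θ M z ∂σ) atTop (𝓝 (∫ z, ({θ} : Set Ci).indicator (fun _ => (1 : ℂ)) z ∂σ)) := by
    classical
    refine tendsto_integral_of_dominated_convergence (fun _ => (1 : ℝ))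
      (fun M => (measurable_DK θ M).aestronglyMeasurable) (integrable_const _)
      (fun M => Eventually.of_forall fun z => norm_DK θ M z) (Eventually.of_forall fun z => ?_)
    have := tendsto_DK θ z
    by_cases h : z = θ
    · rw [if_pos h] at this
      rw [Set.indicator_of_mem (by exact h)]
      exact this
    · rw [if_neg h] at this
      rw [Set.indicator_of_notMem (by exact h)]
      exact this
  have h3 : ∀ M, ∫ x, ((f x : ℝ) : ℂ) * G M x ∂μ = ∫ z, DK θ M z ∂σ := by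
    intro M
    have hfi : ∀ k : ℤ, Integrable (fun z : Ci => (fourier k z : ℂ)) σ := fun k =>
      Integrable.of_bound (measurable_fourier k).aestronglyMeasurable 1
        (Eventually.of_forall fun z => (norm_fourier k z).le)
    have e1 : ∫ z, DK θ M z ∂σ = (M : ℂ)⁻¹ * ∑ m ∈ Finset.range M,
        fourier (-(m : ℤ)) θ * ((rr R μ f (m : ℤ) : ℝ) : ℂ) := by
      unfold DK
      rw [integral_const_mul, integral_finsetSum _ fun m _ => (hfi _).const_mul _]
      congr 1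
      refine Finset.sum_congr rfl fun m _ => ?_
      rw [integral_const_mul, hσ]
    have e2 : ∀ x, ((f x : ℝ) : ℂ) * G M x = (M : ℂ)⁻¹ * ∑ m ∈ Finset.range M,
        fourier (-(m : ℤ)) θ * (((f ((⇑R)^[m] x) * f x : ℝ)) : ℂ) := by
      intro x
      rw [hG]
      simp only
      rw [← mul_assoc, mul_comm _ (M : ℂ)⁻¹, mul_assoc, Finset.mul_sum]
      congr 1
      refine Finset.sum_congr rfl fun m _ => ?_
      push_cast
      ring
    simp_rw [e2]
    rw [e1, integral_const_mul, integral_finsetSum]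
    · congr 1
      refine Finset.sum_congr rfl fun m _ => ?_
      rw [integral_const_mul]
      congr 1
      rw [integral_complex_ofReal]
      rfl
    · intro m _
      refine Integrable.const_mul ?_ _
      refine Integrable.of_bound (Complex.measurable_ofReal.comp
        ((hfm m).mul hf.1)).aestronglyMeasurable 1 (Eventually.of_forall fun x => ?_)
      rw [Complex.norm_real, Real.norm_eq_abs, abs_mul]
      exact mul_le_one₀ (hf.2 _) (abs_nonneg _) (hf.2 _)
  simp_rw [h3] at l1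
  have h4 := tendsto_nhds_unique l2 l1
  rw [integral_indicator (measurableSet_singleton θ), setIntegral_const] at h4
  simp only [Complex.real_smul, mul_one] at h4
  have h5 : σ.real {θ} = 0 := by exact_mod_cast h4
  rw [measureReal_eq_zero_iff] at h5
  exact h5

/-- autocorrelations of iterates -/
theorem corr_eq (hR : MeasurePreserving (⇑R) μ μ) {f : α → ℝ} (hf : Measurable f) (p q : ℕ) :
    ∫ x, f ((⇑R)^[p] x) * f ((⇑R)^[q] x) ∂μ = rr R μ f ((p : ℤ) - q) := by
  obtain ⟨z0, zn, -, zadd, zm, zmp, -⟩ := Pool.Agent.Helper88.SS.gZP α R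
  have hmp := zmp μ hR (q : ℤ)
  have hm : Measurable (fun y => f (zp R ((p : ℤ) - q) y) * f y) := (hf.comp (zm _)).mul hf
  have h1 := integral_map (μ := μ) hmp.measurable.aemeasurable
    (f := fun y => f (zp R ((p : ℤ) - q) y) * f y) hm.aestronglyMeasurable
  rw [hmp.map_eq] at h1
  unfold rr
  rw [h1]
  refine integral_congr_ae (Eventually.of_forall fun x => ?_)
  show f ((⇑R)^[p] x) * f ((⇑R)^[q] x) =
    f (zp R ((p : ℤ) - q) (zp R (q : ℤ) x)) * f (zp R (q : ℤ) x)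
  rw [← zadd, sub_add_cancel, zn, zn]

theorem wm_bd (hR : MeasurePreserving (⇑R) μ μ) {f : α → ℝ} (hf : Bd f) (h0 : NoEig μ R f) :
    Tendsto (fun n : ℕ => ((n : ℝ) ^ 2)⁻¹ * ∑ m ∈ Finset.range n, ∑ m' ∈ Finset.range n,
      (∫ x, f ((⇑R)^[m] x) * f ((⇑R)^[m'] x) ∂μ) ^ 2) atTop (𝓝 0) := by
  obtain ⟨h1, -, h2⟩ := Pool.Agent.Helper32.SS.gRPD Pool.Agent.Helper88.SS.gZP α μ R hR f hf
  obtain ⟨σ, hσ, hs⟩ := Pool.Agent.Helper83.SS.gHZ1 pHZ (rr R μ f) h1 h2
  have := wiener σ (fun θ => no_atoms hR hf h0 hs θ) (rr R μ f) hs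
  simp_rw [corr_eq hR hf.1]
  exact this

theorem wm (hR : MeasurePreserving (⇑R) μ μ) {f : α → ℝ} (hf : Br f) (h0 : NoEig μ R f) :
    Tendsto (fun n : ℕ => ((n : ℝ) ^ 2)⁻¹ * ∑ m ∈ Finset.range n, ∑ m' ∈ Finset.range n,
      (∫ x, f ((⇑R)^[m] x) * f ((⇑R)^[m'] x) ∂μ) ^ 2) atTop (𝓝 0) := by
  obtain ⟨hm, C, hC⟩ := hf
  set D : ℝ := |C| + 1 with hD
  have hD0 : 0 < D := by positivity
  have hb : Bd (fun x => D⁻¹ * f x) := by
    refine ⟨hm.const_mul _, fun x => ?_⟩
    rw [abs_mul, abs_inv, abs_of_pos hD0, inv_mul_le_iff₀ hD0, mul_one]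
    exact (hC x).trans ((le_abs_self C).trans (by linarith))
  have h1 : NoEig μ R (fun x => D⁻¹ * f x) := by
    intro c ψ hψ hψR
    have h2 := h0 c ψ hψ hψR
    have h3 : ∫ x, ((D⁻¹ * f x : ℝ) : ℂ) * ψ x ∂μ = ((D⁻¹ : ℝ) : ℂ) * ∫ x, (f x : ℂ) * ψ x ∂μ := by
      rw [← integral_const_mul]
      refine integral_congr_ae (Eventually.of_forall fun x => ?_)
      show _ = _
      push_cast
      ring
    rw [h3, h2, mul_zero]
  have h2 := (wm_bd hR hb h1).const_mul (D ^ 4)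
  rw [mul_zero] at h2
  refine h2.congr fun n => ?_
  have h3 : ∀ m m' : ℕ, ∫ x, (D⁻¹ * f ((⇑R)^[m] x)) * (D⁻¹ * f ((⇑R)^[m'] x)) ∂μ =
      (D ^ 2)⁻¹ * ∫ x, f ((⇑R)^[m] x) * f ((⇑R)^[m'] x) ∂μ := by
    intro m m'
    rw [← integral_const_mul]
    refine integral_congr_ae (Eventually.of_forall fun x => ?_)
    show _ = _
    field_simp
  simp_rw [h3, mul_pow]
  simp_rw [← Finset.mul_sum]
  have h4 : D ^ 4 * ((D ^ 2)⁻¹ ^ 2) = 1 := by
    field_simp
  calc D ^ 4 * (((n : ℝ) ^ 2)⁻¹ * (((D ^ 2)⁻¹) ^ 2 * ∑ m ∈ Finset.range n, ∑ m' ∈ Finset.range n,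
      (∫ x, f ((⇑R)^[m] x) * f ((⇑R)^[m'] x) ∂μ) ^ 2)) = (D ^ 4 * ((D ^ 2)⁻¹ ^ 2)) *
      (((n : ℝ) ^ 2)⁻¹ * ∑ m ∈ Finset.range n, ∑ m' ∈ Finset.range n,
      (∫ x, f ((⇑R)^[m] x) * f ((⇑R)^[m'] x) ∂μ) ^ 2) := by ring
    _ = _ := by rw [h4, one_mul]

end

end Pool.Agent.Helper30.DX
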