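import Pool.Agent.Helper30.PJ.Three
import Pool.Agent.Helper30.DX.Wm

/-!
# Project DX (MP_9a4587_an): good functions
-/

set_option autoImplicit false
set_option linter.unusedSectionVars false

namespace Pool.Agent.Helper30.DX

open MeasureTheory Filter Topology
open Pool.Agent.Helper57.SS Pool.Agent.Helper30.PJ

section
variable {α : Type} [MeasurableSpace α]

theorem Br.add {f g : α → ℝ} (hf : Br f) (hg : Br g) : Br (fun x => f x + g x) := by
  obtain ⟨h1, C, hC⟩ := hf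
  obtain ⟨h2, D, hD⟩ := hg
  exact ⟨h1.add h2, C + D, fun x => (abs_add_le _ _).trans (add_le_add (hC x) (hD x))⟩

theorem Br.mul {f g : α → ℝ} (hf : Br f) (hg : Br g) : Br (fun x => f x * g x) := by
  obtain ⟨h1, C, hC⟩ := hf
  obtain ⟨h2, D, hD⟩ := hg
  refine ⟨h1.mul h2, C * D, fun x => ?_⟩
  rw [abs_mul]
  exact mul_le_mul (hC x) (hD x) (abs_nonneg _) ((abs_nonneg _).trans (hC x))

theorem Br.const (c : ℝ) : Br (fun _ : α => c) := ⟨measurable_const, |c|, fun _ => le_rfl⟩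

theorem Br.smul {f : α → ℝ} (hf : Br f) (c : ℝ) : Br (fun x => c * f x) := (Br.const c).mul hf

theorem Br.comp {f : α → ℝ} (hf : Br f) {R : α → α} (hR : Measurable R) : Br (fun x => f (R x)) := by
  obtain ⟨h1, C, hC⟩ := hf
  exact ⟨h1.comp hR, C, fun x => hC _⟩

theorem Br.sum {ι : Type} (s : Finset ι) {f : ι → α → ℝ} (hf : ∀ i ∈ s, Br (f i)) :
    Br (fun x => ∑ i ∈ s, f i x) := by
  classical
  induction s using Finset.induction_on with
  | empty => simpa using Br.const 0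
  | insert i s hi ih =>
    simp_rw [Finset.sum_insert hi]
    exact (hf i (Finset.mem_insert_self _ _)).add (ih fun j hj => hf j (Finset.mem_insert_of_mem hj))

theorem Br.of_bd {f : α → ℝ} (hf : Bd f) : Br f := ⟨hf.1, 1, hf.2⟩

theorem Br.pos {f : α → ℝ} (hf : Br f) : ∃ C : ℝ, 0 < C ∧ ∀ x, |f x| ≤ C := by
  obtain ⟨h1, C, hC⟩ := hf
  exact ⟨|C| + 1, by positivity, fun x => (hC x).trans ((le_abs_self C).trans (by linarith))⟩

theorem Br.int {f : α → ℝ} (hf : Br f) {μ : Measure α} [IsFiniteMeasure μ] : Integrable f μ := by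
  obtain ⟨h1, C, hC⟩ := hf
  exact Integrable.of_bound h1.aestronglyMeasurable C (Eventually.of_forall fun x => by
    rw [Real.norm_eq_abs]; exact hC x)

theorem Br.memLp {f : α → ℝ} (hf : Br f) {μ : Measure α} [IsFiniteMeasure μ] (p : ENNReal) :
    MemLp f p μ := by
  obtain ⟨h1, C, hC⟩ := hf
  exact MemLp.of_bound h1.aestronglyMeasurable C (Eventually.of_forall fun x => by
    rw [Real.norm_eq_abs]; exact hC x)

/-- the product of four functions -/
def f4 (f u1 u2 u3 : α → ℝ) (x : Fin 4 → α) : ℝ := f (x 0) * (u1 (x 1) * u2 (x 2) * u3 (x 3))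

theorem Br.ev {f : α → ℝ} (hf : Br f) (i : Fin 4) : Br (fun x : Fin 4 → α => f (x i)) := by
  obtain ⟨h1, C, hC⟩ := hf
  exact ⟨h1.comp (measurable_pi_apply i), C, fun x => hC _⟩

theorem f4_br {f u1 u2 u3 : α → ℝ} (hf : Br f) (h1 : Br u1) (h2 : Br u2) (h3 : Br u3) :
    Br (f4 f u1 u2 u3) := (hf.ev 0).mul (((h1.ev 1).mul (h2.ev 2)).mul (h3.ev 3))

variable {μ : Measure α} [IsProbabilityMeasure μ] {T S : α ≃ᵐ α} {a b : ℕ → ℕ}

instance rho_fin (N : ℕ) : IsFiniteMeasure (rho μ T S a b N) := by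
  rcases Nat.eq_zero_or_pos N with rfl | hN
  · have : rho μ T S a b 0 = 0 := by
      unfold rho
      simp
    rw [this]
    infer_instance
  · have := rho_prob (μ := μ) (T := T) (S := S) (a := a) (b := b) hN
    infer_instance

/-- integrals of functions of one coordinate -/
theorem rho_one (hT : MeasurePreserving (⇑T) μ μ) (hS : MeasurePreserving (⇑S) μ μ) {N : ℕ}
    (hN : 0 < N) (i : Fin 4) {f : α → ℝ} (hf : Measurable f) :
    ∫ x, f (x i) ∂(rho μ T S a b N) = ∫ x, f x ∂μ := by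
  conv_rhs => rw [← rho_marg (a := a) (b := b) hT hS hN i]
  rw [integral_map (measurable_pi_apply i).aemeasurable hf.aestronglyMeasurable]

theorem rho_ae (hT : MeasurePreserving (⇑T) μ μ) (hS : MeasurePreserving (⇑S) μ μ) {N : ℕ}
    (hN : 0 < N) (i : Fin 4) {P : α → Prop} (h : ∀ᵐ x ∂μ, P x) :
    ∀ᵐ x ∂(rho μ T S a b N), P (x i) := by
  have h2 : ∀ᵐ x ∂((rho μ T S a b N).map (fun x => x i)), P x := by
    rw [rho_marg hT hS hN i]; exact h
  exact ae_of_ae_map (measurable_pi_apply i).aemeasurable h2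

/-- `f` in the coordinate `0` is independent of the other coordinates, in the limit -/
def Gd (μ : Measure α) (T S : α ≃ᵐ α) (a b : ℕ → ℕ) (f : α → ℝ) : Prop :=
  ∀ u1 u2 u3 : α → ℝ, Br u1 → Br u2 → Br u3 →
    Tendsto (fun N => ∫ x, f4 f u1 u2 u3 x ∂(rho μ T S a b N)) atTop
      (𝓝 ((∫ x, f x ∂μ) * ((∫ x, u1 x ∂μ) * (∫ x, u2 x ∂μ) * ∫ x, u3 x ∂μ)))

theorem Gd.add {f g : α → ℝ} (hf : Br f) (hg : Br g) (h1 : Gd μ T S a b f) (h2 : Gd μ T S a b g) :
    Gd μ T S a b (fun x => f x + g x) := by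
  intro u1 u2 u3 k1 k2 k3
  have := (h1 u1 u2 u3 k1 k2 k3).add (h2 u1 u2 u3 k1 k2 k3)
  rw [← add_mul, ← integral_add hf.int hg.int] at this
  refine this.congr fun N => ?_
  rw [← integral_add (f4_br hf k1 k2 k3).int (f4_br hg k1 k2 k3).int]
  refine integral_congr_ae (Eventually.of_forall fun x => ?_)
  show _ = _
  unfold f4
  ring

theorem Gd.smul {f : α → ℝ} (h1 : Gd μ T S a b f) (c : ℝ) :
    Gd μ T S a b (fun x => c * f x) := by
  intro u1 u2 u3 k1 k2 k3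
  have := (h1 u1 u2 u3 k1 k2 k3).const_mul c
  rw [← mul_assoc, ← integral_const_mul] at this
  refine this.congr fun N => ?_
  rw [← integral_const_mul]
  refine integral_congr_ae (Eventually.of_forall fun x => ?_)
  show _ = _
  unfold f4
  ring

theorem Gd.close (hT : MeasurePreserving (⇑T) μ μ) (hS : MeasurePreserving (⇑S) μ μ) {f : α → ℝ}
    (hf : Br f) (h : ∀ ε : ℝ, 0 < ε → ∃ g : α → ℝ, Br g ∧ Gd μ T S a b g ∧
      ∫ x, |f x - g x| ∂μ ≤ ε) : Gd μ T S a b f := by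
  intro u1 u2 u3 k1 k2 k3
  obtain ⟨C, hC0, hC⟩ := ((k1.ev (α := α) 1).mul (k2.ev 2) |>.mul (k3.ev 3)).pos
  set U : ℝ := (∫ x, u1 x ∂μ) * (∫ x, u2 x ∂μ) * ∫ x, u3 x ∂μ with hU
  rw [Metric.tendsto_atTop]
  intro ε hε
  set δ : ℝ := ε / (2 * (C + |U| + 1)) with hδ
  have hden : 0 < C + |U| + 1 := by positivity
  have hδ0 : 0 < δ := by positivity
  obtain ⟨g, hg, hG, hfg⟩ := h δ hδ0
  obtain ⟨N0, hN0⟩ := (Metric.tendsto_atTop.1 (hG u1 u2 u3 k1 k2 k3)) (ε / 2) (by positivity)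
  refine ⟨max N0 1, fun N hN => ?_⟩
  have hNp : 0 < N := lt_of_lt_of_le one_pos ((le_max_right _ _).trans hN)
  have e1 := hN0 N ((le_max_left _ _).trans hN)
  rw [Real.dist_eq] at e1 ⊢
  have e2 : |∫ x, f4 f u1 u2 u3 x ∂(rho μ T S a b N) - ∫ x, f4 g u1 u2 u3 x ∂(rho μ T S a b N)| ≤
      C * δ := by
    rw [← integral_sub (f4_br hf k1 k2 k3).int (f4_br hg k1 k2 k3).int, ← Real.norm_eq_abs]
    have hd : Br (fun x => |f x - g x|) := by
      obtain ⟨m1, D1, hD1⟩ := hf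
      obtain ⟨m2, D2, hD2⟩ := hg
      refine ⟨(m1.sub m2).abs, D1 + D2, fun x => ?_⟩
      rw [abs_abs]
      exact (abs_sub _ _).trans (add_le_add (hD1 x) (hD2 x))
    calc ‖∫ x, (f4 f u1 u2 u3 x - f4 g u1 u2 u3 x) ∂(rho μ T S a b N)‖ ≤
        ∫ x, C * |f (x 0) - g (x 0)| ∂(rho μ T S a b N) := by
          refine norm_integral_le_of_norm_le ((hd.ev 0).int.const_mul C)
            (Eventually.of_forall fun x => ?_)
          rw [Real.norm_eq_abs]
          unfold f4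
          rw [← sub_mul, abs_mul, mul_comm]
          exact mul_le_mul_of_nonneg_right (hC x) (abs_nonneg _)
      _ = C * ∫ x, |f x - g x| ∂μ := by
          rw [integral_const_mul, rho_one hT hS hNp 0 hd.1]
      _ ≤ C * δ := mul_le_mul_of_nonneg_left hfg hC0.le
  have e3 : |∫ x, g x ∂μ - ∫ x, f x ∂μ| ≤ δ := by
    rw [abs_sub_comm, ← integral_sub hf.int hg.int, ← Real.norm_eq_abs]
    exact (norm_integral_le_integral_norm _).trans hfg
  have e4 : |(∫ x, g x ∂μ) * U - (∫ x, f x ∂μ) * U| ≤ |U| * δ := by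
    rw [← sub_mul, abs_mul, mul_comm]
    exact mul_le_mul_of_nonneg_left e3 (abs_nonneg _)
  have e5 : C * δ + |U| * δ < ε / 2 := by
    have : (C + |U| + 1) * δ = ε / 2 := by
      rw [hδ]; field_simp
    nlinarith
  have e6 : ∀ p q r s : ℝ, |p - s| ≤ |p - q| + |q - r| + |r - s| := by
    intro p q r s
    calc |p - s| = |(p - q) + (q - r) + (r - s)| := by congr 1; ring
      _ ≤ |(p - q) + (q - r)| + |r - s| := abs_add_le _ _
      _ ≤ |p - q| + |q - r| + |r - s| := by linarith [abs_add_le (p - q) (q - r)]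
  have := e6 (∫ x, f4 f u1 u2 u3 x ∂(rho μ T S a b N)) (∫ x, f4 g u1 u2 u3 x ∂(rho μ T S a b N))
    ((∫ x, g x ∂μ) * U) ((∫ x, f x ∂μ) * U)
  linarith

/-- in terms of the averages -/
theorem f4_Av {f u1 u2 u3 : α → ℝ} (hf : Bd f) (h1 : Bd u1) (h2 : Bd u2) (h3 : Bd u3) (N : ℕ) :
    ∫ x, f4 f u1 u2 u3 x ∂(rho μ T S a b N) =
      ∫ x, Av T S a b f u2 N x * Av T S a b u1 u3 N x ∂μ := by
  have h := rho_real (μ := μ) (T := T) (S := S) (a := a) (b := b)
    (u := ![f, u1, u2, u3]) (by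
      intro i
      fin_cases i
      · exact hf
      · exact h1
      · exact h2
      · exact h3) N
  apply Complex.ofReal_injective
  have h4 : ((∫ x, f4 f u1 u2 u3 x ∂(rho μ T S a b N) : ℝ) : ℂ) =
      ∫ x, ∏ i, (((![f, u1, u2, u3] : Fin 4 → α → ℝ) i (x i) : ℝ) : ℂ) ∂(rho μ T S a b N) := by
    rw [← integral_complex_ofReal]
    refine integral_congr_ae (Eventually.of_forall fun x => ?_)
    show ((f4 f u1 u2 u3 x : ℝ) : ℂ) = ∏ i, (((![f, u1, u2, u3] : Fin 4 → α → ℝ) i (x i) : ℝ) : ℂ)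
    rw [Fin.prod_univ_four]
    show ((f (x 0) * (u1 (x 1) * u2 (x 2) * u3 (x 3)) : ℝ) : ℂ) =
      ((f (x 0) : ℝ) : ℂ) * ((u1 (x 1) : ℝ) : ℂ) * ((u2 (x 2) : ℝ) : ℂ) * ((u3 (x 3) : ℝ) : ℂ)
    push_cast
    ring
  rw [h4, h]
  rfl

/-- scaling to functions bounded by `1` -/
theorem Br.scale {f : α → ℝ} (hf : Br f) : ∃ (c : ℝ) (g : α → ℝ), 0 < c ∧ Bd g ∧
    f = fun x => c * g x := by
  obtain ⟨C, hC0, hC⟩ := hf.pos
  refine ⟨C, fun x => C⁻¹ * f x, hC0, ⟨hf.1.const_mul _, fun x => ?_⟩, ?_⟩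
  · rw [abs_mul, abs_inv, abs_of_pos hC0, inv_mul_le_iff₀ hC0, mul_one]
    exact hC x
  · funext x
    field_simp

theorem gd_of_bd {f : α → ℝ} (h : ∀ u1 u2 u3 : α → ℝ, Bd u1 → Bd u2 → Bd u3 →
    Tendsto (fun N => ∫ x, f4 f u1 u2 u3 x ∂(rho μ T S a b N)) atTop
      (𝓝 ((∫ x, f x ∂μ) * ((∫ x, u1 x ∂μ) * (∫ x, u2 x ∂μ) * ∫ x, u3 x ∂μ)))) :
    Gd μ T S a b f := by
  intro u1 u2 u3 k1 k2 k3
  obtain ⟨c1, v1, hc1, hv1, rfl⟩ := k1.scale
  obtain ⟨c2, v2, hc2, hv2, rfl⟩ := k2.scale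
  obtain ⟨c3, v3, hc3, hv3, rfl⟩ := k3.scale
  have := (h v1 v2 v3 hv1 hv2 hv3).const_mul (c1 * c2 * c3)
  simp_rw [integral_const_mul]
  refine (this.congr fun N => ?_).trans (le_of_eq ?_)
  · rw [← integral_const_mul]
    refine integral_congr_ae (Eventually.of_forall fun x => ?_)
    show _ = _
    unfold f4
    ring
  · congr 1
    ring

variable (hW : Wp a b) (hT : Ergodic (⇑T) μ) (hS : Ergodic (⇑S) μ) (hTS : ∀ x, T (S x) = S (T x))

include hW hT hS hTS in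
theorem gd_of_conv {f : α → ℝ} (hf : Br f) (h : ∀ g, Bd g → Conv μ T S a b f g) :
    Gd μ T S a b f := by
  obtain ⟨c, f', hc, hf', rfl⟩ := hf.scale
  refine Gd.smul ?_ c
  have h' : ∀ g, Bd g → Conv μ T S a b f' g := by
    intro g hg
    have h1 := (h g hg).smul c⁻¹ 1
    have e1 : (fun x => c⁻¹ * (c * f' x)) = f' := by
      funext x; field_simp
    have e2 : (fun x => 1 * g x) = g := by
      funext x; ring
    rwa [e1, e2] at h1
  refine gd_of_bd fun u1 u2 u3 k1 k2 k3 => ?_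
  simp_rw [f4_Av hf' k1 k2 k3]
  have h1 := h' u2 k2
  have h2 := int_Av_lim hW hT hS hTS k1 k3
  have := prod_lim (fun N => Av_bd hf' k2 N) (fun N => Av_bd k1 k3 N) h1 h2
  refine (this.congr fun N => ?_).trans (le_of_eq ?_)
  · exact integral_congr_ae (Eventually.of_forall fun x => mul_comm _ _)
  · congr 1
    ring

include hW hT hS hTS in
theorem conv_of_gd {f g : α → ℝ} (hf : Bd f) (hg : Bd g) (h : Gd μ T S a b f) :
    Conv μ T S a b f g := by
  refine conv_of_var hT.toMeasurePreserving hS.toMeasurePreserving hf hg ?_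
    (int_Av_lim hW hT hS hTS hf hg)
  have h1 := h f g g (Br.of_bd hf) (Br.of_bd hg) (Br.of_bd hg)
  refine (h1.congr fun N => ?_).trans (le_of_eq ?_)
  · rw [f4_Av hf hf hg hg]
    refine integral_congr_ae (Eventually.of_forall fun x => ?_)
    show _ = _
    ring
  · congr 1
    ring

end

end Pool.Agent.Helper30.DX
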