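import Pool.Agent.Helper30.DX.Gd

/-!
# Project DX (MP_9a4587_an): isometric extensions of good factors
-/

set_option autoImplicit false
set_option linter.unusedSectionVars false

namespace Pool.Agent.Helper30.DX

open MeasureTheory Filter Topology
open Pool.Agent.Helper57.SS Pool.Agent.Helper30.PJ

/-- coefficients of the iterates -/
def cf {α : Type} {n : ℕ} (R : α → α) (A : Fin n → Fin n → α → ℝ) (c0 : Fin n → α → ℝ) :
    ℕ → Fin n → α → ℝ
  | 0 => c0
  | m + 1 => fun k x => ∑ j, cf R A c0 m j (R x) * A j k x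

section
variable {α : Type} [m0 : MeasurableSpace α] {n : ℕ} {A : Fin n → Fin n → α → ℝ}
  {c0 : Fin n → α → ℝ} {F : Fin n → α → ℝ}

theorem cf_br {R : α → α} (hR : Measurable R) (hA : ∀ i j, Br (A i j)) (hc : ∀ j, Br (c0 j))
    (m : ℕ) : ∀ j, Br (cf R A c0 m j) := by
  induction m with
  | zero => exact hc
  | succ m ih =>
    intro k
    exact Br.sum _ fun j _ => ((ih j).comp hR).mul (hA j k)

theorem cf_eq {μ : Measure α} {R : α → α} (hR : MeasurePreserving R μ μ)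
    (hFA : ∀ i, ∀ᵐ x ∂μ, F i (R x) = ∑ j, A i j x * F j x) (m : ℕ) :
    ∀ᵐ x ∂μ, ∑ j, c0 j (R^[m] x) * F j (R^[m] x) = ∑ j, cf R A c0 m j x * F j x := by
  induction m with
  | zero => exact Eventually.of_forall fun x => rfl
  | succ m ih =>
    have h1 : ∀ᵐ x ∂μ, ∑ j, c0 j (R^[m] (R x)) * F j (R^[m] (R x)) =
        ∑ j, cf R A c0 m j (R x) * F j (R x) := hR.quasiMeasurePreserving.ae ih
    have h2 : ∀ᵐ x ∂μ, ∀ i, F i (R x) = ∑ j, A i j x * F j x := ae_all_iff.2 hFA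
    filter_upwards [h1, h2] with x h1 h2
    rw [Function.iterate_succ_apply, h1]
    simp_rw [h2]
    show ∑ j, cf R A c0 m j (R x) * ∑ k, A j k x * F k x =
      ∑ k, (∑ j, cf R A c0 m j (R x) * A j k x) * F k x
    simp_rw [Finset.mul_sum, Finset.sum_mul]
    rw [Finset.sum_comm]
    refine Finset.sum_congr rfl fun k _ => Finset.sum_congr rfl fun j _ => ?_
    ring

end

section
variable {α : Type} [m0 : MeasurableSpace α]

/-- Cauchy-Schwarz -/
theorem abs_int_sq {β : Type} [MeasurableSpace β] {ρ : Measure β} [IsProbabilityMeasure ρ]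
    {D : β → ℝ} (hD : Br D) : ∫ x, |D x| ∂ρ ≤ Real.sqrt (∫ x, D x ^ 2 ∂ρ) := by
  refine Real.le_sqrt_of_sq_le ?_
  set m := ∫ x, |D x| ∂ρ with hm
  have hab : Br (fun x => |D x|) := by
    obtain ⟨h1, C, hC⟩ := hD
    exact ⟨h1.abs, C, fun x => by rw [abs_abs]; exact hC x⟩
  have hsq : Br (fun x => D x ^ 2) := by
    simp_rw [sq]
    exact hD.mul hD
  have h5 : 0 ≤ ∫ x, (|D x| - m) ^ 2 ∂ρ := integral_nonneg fun x => sq_nonneg _
  have e : (fun x => (|D x| - m) ^ 2) = fun x => (D x ^ 2 - (2 * m) * |D x|) + m ^ 2 := by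
    funext x
    have := sq_abs (D x)
    nlinarith
  have i1 : Integrable (fun x => 2 * m * |D x|) ρ := hab.int.const_mul (2 * m)
  have i2 : Integrable (fun x => D x ^ 2 - 2 * m * |D x|) ρ := hsq.int.sub i1
  rw [e, integral_add i2 (integrable_const _), integral_sub hsq.int i1, integral_const_mul] at h5
  simp only [integral_const, probReal_univ, smul_eq_mul, one_mul] at h5
  rw [← hm] at h5
  nlinarith

variable {μ : Measure α} [IsProbabilityMeasure μ] {T S R : α ≃ᵐ α} {a b : ℕ → ℕ}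

theorem rho_iter (hR : MeasurePreserving (⇑R) μ μ) (hRT : ∀ x, T (R x) = R (T x))
    (hRS : ∀ x, S (R x) = R (S x)) (N m : ℕ) {G : (Fin 4 → α) → ℝ} (hG : Measurable G) :
    ∫ x, G (fun i => (⇑R)^[m] (x i)) ∂(rho μ T S a b N) = ∫ x, G x ∂(rho μ T S a b N) := by
  induction m generalizing G with
  | zero => rfl
  | succ m ih =>
    have hm : Measurable fun (x : Fin 4 → α) (i : Fin 4) => R (x i) :=
      measurable_pi_lambda _ fun i => R.measurable.comp (measurable_pi_apply i)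
    have hm' : Measurable fun (x : Fin 4 → α) (i : Fin 4) => (⇑R)^[m] (x i) :=
      measurable_pi_lambda _ fun i => (R.measurable.iterate m).comp (measurable_pi_apply i)
    have h1 : ∫ x, G (fun i => (⇑R)^[m + 1] (x i)) ∂(rho μ T S a b N) =
        ∫ x, G (fun i => (⇑R)^[m] (x i)) ∂(rho μ T S a b N) := by
      have h2 := integral_map (μ := rho μ T S a b N) hm.aemeasurable
        (f := fun x : Fin 4 → α => G (fun i => (⇑R)^[m] (x i))) (hG.comp hm').aestronglyMeasurable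
      rw [rho_inv hR hRT hRS N] at h2
      rw [h2]
      rfl
    rw [h1, ih hG]

theorem step (hT : MeasurePreserving (⇑T) μ μ) (hS : MeasurePreserving (⇑S) μ μ)
    (hR : MeasurePreserving (⇑R) μ μ) (hRT : ∀ x, T (R x) = R (T x))
    (hRS : ∀ x, S (R x) = R (S x)) {P : (α → ℝ) → Prop}
    (hPR : ∀ w, P w → P (fun x => w (R x))) (hPm : ∀ v w, P v → P w → P (fun x => v x * w x))
    (hPs : ∀ (n : ℕ) (v : Fin n → α → ℝ), (∀ i, P (v i)) → P (fun x => ∑ i, v i x))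
    (hPb : ∀ w, P w → Br w)
    (hG : ∀ w, P w → Gd μ T S a b w) {n : ℕ} {F : Fin n → α → ℝ} (hF : ∀ i, Br (F i))
    {A : Fin n → Fin n → α → ℝ} (hA : ∀ i j, P (A i j))
    (hFA : ∀ i, ∀ᵐ x ∂μ, F i (R x) = ∑ j, A i j x * F j x)
    (hort : ∀ i j w, P w → ∫ x, w x * (F i x * F j x) ∂μ = if i = j then ∫ x, w x ∂μ else 0)
    {c0 : Fin n → α → ℝ} (hc : ∀ j, P (c0 j))
    (hwm : Tendsto (fun k : ℕ => ((k : ℝ) ^ 2)⁻¹ * ∑ m ∈ Finset.range k, ∑ m' ∈ Finset.range k,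
      (∫ x, (∑ j, c0 j ((⇑R)^[m] x) * F j ((⇑R)^[m] x)) *
        (∑ j, c0 j ((⇑R)^[m'] x) * F j ((⇑R)^[m'] x)) ∂μ) ^ 2) atTop (𝓝 0))
    (h0 : ∫ x, ∑ j, c0 j x * F j x ∂μ = 0) :
    Gd μ T S a b (fun x => ∑ j, c0 j x * F j x) := by
  intro u1 u2 u3 k1 k2 k3
  rw [h0, zero_mul]
  set h : α → ℝ := fun x => ∑ j, c0 j x * F j x with hh
  have hPcf : ∀ m j, P (cf (⇑R) A c0 m j) := by
    intro m
    induction m with
    | zero => exact hc
    | succ m ih =>
      intro k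
      exact hPs n (fun j x => cf (⇑R) A c0 m j (R x) * A j k x) fun j =>
        hPm _ _ (hPR _ (ih j)) (hA j k)
  have hcfb : ∀ m j, Br (cf (⇑R) A c0 m j) := fun m j => hPb _ (hPcf m j)
  have hhb : Br h := Br.sum _ fun j _ => (hPb _ (hc j)).mul (hF j)
  have hit : ∀ m : ℕ, Measurable ((⇑R)^[m]) := fun m => R.measurable.iterate m
  -- the shifted functions
  set gm : ℕ → (Fin 4 → α) → ℝ := fun m x =>
    u1 ((⇑R)^[m] (x 1)) * u2 ((⇑R)^[m] (x 2)) * u3 ((⇑R)^[m] (x 3)) with hgm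
  have hgmb : ∀ m, Br (gm m) := fun m =>
    (((k1.comp (hit m)).ev 1).mul ((k2.comp (hit m)).ev 2)).mul ((k3.comp (hit m)).ev 3)
  set D : ℕ → Fin n → (Fin 4 → α) → ℝ := fun K j x =>
    (K : ℝ)⁻¹ * ∑ m ∈ Finset.range K, cf (⇑R) A c0 m j (x 0) * gm m x with hD
  have hDb : ∀ K j, Br (D K j) := fun K j =>
    (Br.sum _ fun m _ => ((hcfb m j).ev 0).mul (hgmb m)).smul _
  -- step 1
  have s1 : ∀ K : ℕ, 0 < K → ∀ N : ℕ, 0 < N → ∫ x, f4 h u1 u2 u3 x ∂(rho μ T S a b N) =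
      ∫ x, ∑ j, F j (x 0) * D K j x ∂(rho μ T S a b N) := by
    intro K hK N hN
    have t1 : ∀ m, ∫ x, f4 h u1 u2 u3 x ∂(rho μ T S a b N) =
        ∫ x, ∑ j, cf (⇑R) A c0 m j (x 0) * F j (x 0) * gm m x ∂(rho μ T S a b N) := by
      intro m
      rw [← rho_iter hR hRT hRS N m (f4_br hhb k1 k2 k3).1]
      refine integral_congr_ae ?_
      have t2 := rho_ae (a := a) (b := b) hT hS hN 0 (cf_eq (c0 := c0) hR hFA m)
      filter_upwards [t2] with x hx
      show h ((⇑R)^[m] (x 0)) * gm m x = _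
      rw [← Finset.sum_mul]
      congr 1
    have t3 : ∫ x, ∑ j, F j (x 0) * D K j x ∂(rho μ T S a b N) = (K : ℝ)⁻¹ *
        ∑ m ∈ Finset.range K, ∫ x, ∑ j, cf (⇑R) A c0 m j (x 0) * F j (x 0) * gm m x
          ∂(rho μ T S a b N) := by
      rw [← integral_finsetSum, ← integral_const_mul]
      · refine integral_congr_ae (Eventually.of_forall fun x => ?_)
        show ∑ j, F j (x 0) * D K j x = (K : ℝ)⁻¹ * ∑ m ∈ Finset.range K,
          ∑ j, cf (⇑R) A c0 m j (x 0) * F j (x 0) * gm m x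
        rw [Finset.sum_comm, Finset.mul_sum]
        refine Finset.sum_congr rfl fun j _ => ?_
        rw [hD]
        simp only
        rw [← mul_assoc, mul_comm (F j (x 0)), mul_assoc, Finset.mul_sum]
        congr 1
        refine Finset.sum_congr rfl fun m _ => ?_
        ring
      · intro m _
        exact (Br.sum _ fun j _ => (((hcfb m j).ev 0).mul ((hF j).ev 0)).mul (hgmb m)).int
    rw [t3, ← Finset.sum_congr rfl fun m _ => t1 m, Finset.sum_const, Finset.card_range,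
      nsmul_eq_mul, ← mul_assoc, inv_mul_cancel₀ (by exact_mod_cast hK.ne'), one_mul]
  -- a common bound
  obtain ⟨C, hC0, hC⟩ : ∃ C : ℝ, 0 < C ∧ ∀ j x, |F j x| ≤ C := by
    choose C hC0 hC using fun j => (hF j).pos
    refine ⟨∑ j, C j + 1, by
      have : 0 ≤ ∑ j, C j := Finset.sum_nonneg fun j _ => (hC0 j).le
      linarith, fun j x => ?_⟩
    have h1 : C j ≤ ∑ j, C j := Finset.single_le_sum (f := C) (fun i _ => (hC0 i).le) (Finset.mem_univ j)
    linarith [hC j x]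
  -- step 2
  have s2 : ∀ K : ℕ, 0 < K → ∀ N : ℕ, 0 < N → |∫ x, f4 h u1 u2 u3 x ∂(rho μ T S a b N)| ≤
      ∑ j, C * Real.sqrt (∫ x, D K j x ^ 2 ∂(rho μ T S a b N)) := by
    intro K hK N hN
    have := rho_prob (μ := μ) (T := T) (S := S) (a := a) (b := b) hN
    rw [s1 K hK N hN, integral_finsetSum _ fun j _ => (((hF j).ev 0).mul (hDb K j)).int]
    refine (Finset.abs_sum_le_sum_abs _ _).trans (Finset.sum_le_sum fun j _ => ?_)
    have hab : Br (fun x => |D K j x|) := by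
      obtain ⟨h1, B, hB⟩ := hDb K j
      exact ⟨h1.abs, B, fun x => by rw [abs_abs]; exact hB x⟩
    calc |∫ x, F j (x 0) * D K j x ∂(rho μ T S a b N)| ≤
        ∫ x, C * |D K j x| ∂(rho μ T S a b N) := by
          rw [← Real.norm_eq_abs]
          refine norm_integral_le_of_norm_le (hab.int.const_mul C)
            (Eventually.of_forall fun x => ?_)
          rw [Real.norm_eq_abs, abs_mul]
          exact mul_le_mul_of_nonneg_right (hC j _) (abs_nonneg _)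
      _ = C * ∫ x, |D K j x| ∂(rho μ T S a b N) := integral_const_mul _ _
      _ ≤ _ := mul_le_mul_of_nonneg_left (abs_int_sq (hDb K j)) hC0.le
  -- step 3
  set U : ℕ → ℕ → ℝ := fun m m' => (∫ x, u1 ((⇑R)^[m] x) * u1 ((⇑R)^[m'] x) ∂μ) *
    (∫ x, u2 ((⇑R)^[m] x) * u2 ((⇑R)^[m'] x) ∂μ) * ∫ x, u3 ((⇑R)^[m] x) * u3 ((⇑R)^[m'] x) ∂μ with hU
  set Q : ℕ → Fin n → ℝ := fun K j => ((K : ℝ) ^ 2)⁻¹ * ∑ m ∈ Finset.range K,
    ∑ m' ∈ Finset.range K, (∫ x, cf (⇑R) A c0 m j x * cf (⇑R) A c0 m' j x ∂μ) * U m m' with hQ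
  have s3 : ∀ K j, Tendsto (fun N => ∫ x, D K j x ^ 2 ∂(rho μ T S a b N)) atTop (𝓝 (Q K j)) := by
    intro K j
    have t1 : ∀ m m', Tendsto (fun N => ∫ x, f4 (fun x => cf (⇑R) A c0 m j x * cf (⇑R) A c0 m' j x)
        (fun x => u1 ((⇑R)^[m] x) * u1 ((⇑R)^[m'] x)) (fun x => u2 ((⇑R)^[m] x) * u2 ((⇑R)^[m'] x))
        (fun x => u3 ((⇑R)^[m] x) * u3 ((⇑R)^[m'] x)) x ∂(rho μ T S a b N)) atTop
        (𝓝 ((∫ x, cf (⇑R) A c0 m j x * cf (⇑R) A c0 m' j x ∂μ) * U m m')) := fun m m' =>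
      hG _ (hPm _ _ (hPcf m j) (hPcf m' j)) _ _ _ ((k1.comp (hit m)).mul (k1.comp (hit m')))
        ((k2.comp (hit m)).mul (k2.comp (hit m'))) ((k3.comp (hit m)).mul (k3.comp (hit m')))
    have t2 := (tendsto_finsetSum (Finset.range K) fun m _ =>
      tendsto_finsetSum (Finset.range K) fun m' _ => t1 m m').const_mul (((K : ℝ) ^ 2)⁻¹)
    refine t2.congr fun N => ?_
    have tb : ∀ m m', Br (f4 (fun x => cf (⇑R) A c0 m j x * cf (⇑R) A c0 m' j x)
        (fun x => u1 ((⇑R)^[m] x) * u1 ((⇑R)^[m'] x)) (fun x => u2 ((⇑R)^[m] x) * u2 ((⇑R)^[m'] x))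
        (fun x => u3 ((⇑R)^[m] x) * u3 ((⇑R)^[m'] x))) := fun m m' =>
      f4_br ((hcfb m j).mul (hcfb m' j)) ((k1.comp (hit m)).mul (k1.comp (hit m')))
        ((k2.comp (hit m)).mul (k2.comp (hit m'))) ((k3.comp (hit m)).mul (k3.comp (hit m')))
    have t3 : ∀ m, ∑ m' ∈ Finset.range K, ∫ x, f4 (fun x => cf (⇑R) A c0 m j x * cf (⇑R) A c0 m' j x)
        (fun x => u1 ((⇑R)^[m] x) * u1 ((⇑R)^[m'] x)) (fun x => u2 ((⇑R)^[m] x) * u2 ((⇑R)^[m'] x))
        (fun x => u3 ((⇑R)^[m] x) * u3 ((⇑R)^[m'] x)) x ∂(rho μ T S a b N) =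
        ∫ x, ∑ m' ∈ Finset.range K, f4 (fun x => cf (⇑R) A c0 m j x * cf (⇑R) A c0 m' j x)
        (fun x => u1 ((⇑R)^[m] x) * u1 ((⇑R)^[m'] x)) (fun x => u2 ((⇑R)^[m] x) * u2 ((⇑R)^[m'] x))
        (fun x => u3 ((⇑R)^[m] x) * u3 ((⇑R)^[m'] x)) x ∂(rho μ T S a b N) := fun m =>
      (integral_finsetSum _ fun m' _ => (tb m m').int).symm
    simp_rw [t3]
    rw [← integral_finsetSum _ fun m _ => (Br.sum _ fun m' _ => tb m m').int, ← integral_const_mul]
    refine integral_congr_ae (Eventually.of_forall fun x => ?_)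
    show ((K : ℝ) ^ 2)⁻¹ * ∑ m ∈ Finset.range K, ∑ m' ∈ Finset.range K,
      f4 (fun x => cf (⇑R) A c0 m j x * cf (⇑R) A c0 m' j x)
        (fun x => u1 ((⇑R)^[m] x) * u1 ((⇑R)^[m'] x)) (fun x => u2 ((⇑R)^[m] x) * u2 ((⇑R)^[m'] x))
        (fun x => u3 ((⇑R)^[m] x) * u3 ((⇑R)^[m'] x)) x = D K j x ^ 2
    rw [hD]
    simp only
    rw [mul_pow, inv_pow, sq (∑ m ∈ Finset.range K, _), Finset.sum_mul_sum]
    congr 1
    refine Finset.sum_congr rfl fun m _ => Finset.sum_congr rfl fun m' _ => ?_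
    unfold f4
    rw [hgm]
    simp only
    ring
  -- step 4
  set c : ℕ → ℕ → ℝ := fun m m' => ∫ x, (∑ j, c0 j ((⇑R)^[m] x) * F j ((⇑R)^[m] x)) *
    (∑ j, c0 j ((⇑R)^[m'] x) * F j ((⇑R)^[m'] x)) ∂μ with hcdef
  have s4 : ∀ m m', ∑ j, ∫ x, cf (⇑R) A c0 m j x * cf (⇑R) A c0 m' j x ∂μ = c m m' := by
    intro m m'
    have t1 : c m m' = ∫ x, ∑ j, ∑ k, (cf (⇑R) A c0 m j x * cf (⇑R) A c0 m' k x) *
        (F j x * F k x) ∂μ := by
      refine integral_congr_ae ?_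
      filter_upwards [cf_eq (c0 := c0) hR hFA m, cf_eq (c0 := c0) hR hFA m'] with x h1 h2
      rw [h1, h2, Finset.sum_mul_sum]
      refine Finset.sum_congr rfl fun j _ => Finset.sum_congr rfl fun k _ => ?_
      ring
    have tb : ∀ j k, Br (fun x => (cf (⇑R) A c0 m j x * cf (⇑R) A c0 m' k x) *
        (F j x * F k x)) := fun j k => ((hcfb m j).mul (hcfb m' k)).mul ((hF j).mul (hF k))
    rw [t1, integral_finsetSum _ fun j _ => (Br.sum _ fun k _ => tb j k).int]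
    refine Finset.sum_congr rfl fun j _ => ?_
    rw [integral_finsetSum _ fun k _ => (tb j k).int]
    have t2 : ∀ k, ∫ x, (cf (⇑R) A c0 m j x * cf (⇑R) A c0 m' k x) * (F j x * F k x) ∂μ =
        if j = k then ∫ x, cf (⇑R) A c0 m j x * cf (⇑R) A c0 m' k x ∂μ else 0 := fun k =>
      hort j k _ (hPm _ _ (hPcf m j) (hPcf m' k))
    rw [Finset.sum_congr rfl fun k _ => t2 k, Finset.sum_ite_eq]
    simp
  obtain ⟨U0, hU0, hUb⟩ : ∃ U0 : ℝ, 0 ≤ U0 ∧ ∀ m m', |U m m'| ≤ U0 := by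
    obtain ⟨C1, hC1, h1⟩ := k1.pos
    obtain ⟨C2, hC2, h2⟩ := k2.pos
    obtain ⟨C3, hC3, h3⟩ := k3.pos
    have t1 : ∀ {u : α → ℝ} {C : ℝ}, 0 < C → (∀ x, |u x| ≤ C) → ∀ m m' : ℕ,
        |∫ x, u ((⇑R)^[m] x) * u ((⇑R)^[m'] x) ∂μ| ≤ C * C := by
      intro u C hC hu m m'
      have := norm_integral_le_of_norm_le_const (μ := μ) (C := C * C)
        (f := fun x => u ((⇑R)^[m] x) * u ((⇑R)^[m'] x)) (Eventually.of_forall fun x => by
          rw [Real.norm_eq_abs, abs_mul]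
          exact mul_le_mul (hu _) (hu _) (abs_nonneg _) hC.le)
      simpa using this
    refine ⟨(C1 * C1) * (C2 * C2) * (C3 * C3), by positivity, fun m m' => ?_⟩
    rw [hU]
    simp only
    rw [abs_mul, abs_mul]
    exact mul_le_mul (mul_le_mul (t1 hC1 h1 m m') (t1 hC2 h2 m m') (abs_nonneg _) (by positivity))
      (t1 hC3 h3 m m') (abs_nonneg _) (by positivity)
  set W : ℕ → ℝ := fun k => ((k : ℝ) ^ 2)⁻¹ * ∑ m ∈ Finset.range k, ∑ m' ∈ Finset.range k,
    (c m m') ^ 2 with hWdef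
  have hQ0 : ∀ K j, 0 ≤ Q K j := fun K j => ge_of_tendsto' (s3 K j) fun N =>
    integral_nonneg fun x => sq_nonneg _
  have s5 : ∀ K : ℕ, 0 < K → ∀ j, Q K j ≤ U0 * Real.sqrt (W K) := by
    intro K hK j
    have hKr : (0 : ℝ) < (K : ℝ) := by exact_mod_cast hK
    have t1 : Q K j ≤ ∑ j, Q K j :=
      Finset.single_le_sum (f := fun j => Q K j) (fun i _ => hQ0 K i) (Finset.mem_univ j)
    have t2 : ∑ j, Q K j = ((K : ℝ) ^ 2)⁻¹ * ∑ m ∈ Finset.range K, ∑ m' ∈ Finset.range K,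
        c m m' * U m m' := by
      rw [hQ]
      simp only
      rw [← Finset.mul_sum, Finset.sum_comm]
      congr 1
      refine Finset.sum_congr rfl fun m _ => ?_
      rw [Finset.sum_comm]
      refine Finset.sum_congr rfl fun m' _ => ?_
      rw [← Finset.sum_mul, s4]
    have t3 : ∑ m ∈ Finset.range K, ∑ m' ∈ Finset.range K, c m m' * U m m' ≤
        U0 * ∑ m ∈ Finset.range K, ∑ m' ∈ Finset.range K, |c m m'| := by
      rw [Finset.mul_sum]
      refine Finset.sum_le_sum fun m _ => ?_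
      rw [Finset.mul_sum]
      refine Finset.sum_le_sum fun m' _ => ?_
      refine (le_abs_self _).trans ?_
      rw [abs_mul, mul_comm]
      exact mul_le_mul_of_nonneg_right (hUb m m') (abs_nonneg _)
    have t4 : ((K : ℝ) ^ 2)⁻¹ * ∑ m ∈ Finset.range K, ∑ m' ∈ Finset.range K, |c m m'| ≤
        Real.sqrt (W K) := by
      refine Real.le_sqrt_of_sq_le ?_
      rw [hWdef]
      simp only
      rw [← Finset.sum_product', ← Finset.sum_product']
      have t5 := sq_sum_le_card_mul_sum_sq (s := Finset.range K ×ˢ Finset.range K)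
        (f := fun p : ℕ × ℕ => |c p.1 p.2|)
      rw [Finset.card_product, Finset.card_range] at t5
      simp_rw [sq_abs] at t5
      push_cast at t5
      rw [mul_pow]
      calc (((K : ℝ) ^ 2)⁻¹) ^ 2 * (∑ x ∈ Finset.range K ×ˢ Finset.range K, |c x.1 x.2|) ^ 2 ≤
          (((K : ℝ) ^ 2)⁻¹) ^ 2 * ((K : ℝ) * K * ∑ p ∈ Finset.range K ×ˢ Finset.range K,
            c p.1 p.2 ^ 2) := mul_le_mul_of_nonneg_left t5 (by positivity)
        _ = ((K : ℝ) ^ 2)⁻¹ * ∑ p ∈ Finset.range K ×ˢ Finset.range K, c p.1 p.2 ^ 2 := by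
            rw [← mul_assoc]
            congr 1
            field_simp
    calc Q K j ≤ ((K : ℝ) ^ 2)⁻¹ * ∑ m ∈ Finset.range K, ∑ m' ∈ Finset.range K,
        c m m' * U m m' := t1.trans t2.le
      _ ≤ ((K : ℝ) ^ 2)⁻¹ * (U0 * ∑ m ∈ Finset.range K, ∑ m' ∈ Finset.range K, |c m m'|) :=
          mul_le_mul_of_nonneg_left t3 (by positivity)
      _ = U0 * (((K : ℝ) ^ 2)⁻¹ * ∑ m ∈ Finset.range K, ∑ m' ∈ Finset.range K, |c m m'|) := by ring
      _ ≤ U0 * Real.sqrt (W K) := mul_le_mul_of_nonneg_left t4 hU0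
  -- conclusion
  have hWlim : Tendsto (fun K => (n : ℝ) * (C * Real.sqrt (U0 * Real.sqrt (W K)))) atTop (𝓝 0) := by
    have t1 : Tendsto W atTop (𝓝 0) := hwm
    have t2 : Tendsto (fun K => Real.sqrt (W K)) atTop (𝓝 0) := by
      have := (Real.continuous_sqrt.tendsto 0).comp t1
      rwa [Real.sqrt_zero] at this
    have t3 := t2.const_mul U0
    rw [mul_zero] at t3
    have t4 : Tendsto (fun K => Real.sqrt (U0 * Real.sqrt (W K))) atTop (𝓝 0) := by
      have := (Real.continuous_sqrt.tendsto 0).comp t3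
      rwa [Real.sqrt_zero] at this
    have t5 := (t4.const_mul C).const_mul (n : ℝ)
    simpa using t5
  rw [Metric.tendsto_atTop]
  intro ε hε
  have hev := (hWlim.eventually (gt_mem_nhds hε)).and (eventually_gt_atTop 0)
  obtain ⟨K, hK1, hK2⟩ := hev.exists
  have hlim : Tendsto (fun N => ∑ j, C * Real.sqrt (∫ x, D K j x ^ 2 ∂(rho μ T S a b N))) atTop
      (𝓝 (∑ j, C * Real.sqrt (Q K j))) :=
    tendsto_finsetSum _ fun j _ => (((Real.continuous_sqrt.tendsto _).comp (s3 K j)).const_mul C)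
  have hlt : ∑ j, C * Real.sqrt (Q K j) < ε := by
    refine lt_of_le_of_lt ?_ hK1
    calc ∑ j, C * Real.sqrt (Q K j) ≤ ∑ _j : Fin n, C * Real.sqrt (U0 * Real.sqrt (W K)) :=
          Finset.sum_le_sum fun j _ => mul_le_mul_of_nonneg_left
            (Real.sqrt_le_sqrt (s5 K hK2 j)) hC0.le
      _ = (n : ℝ) * (C * Real.sqrt (U0 * Real.sqrt (W K))) := by
          rw [Finset.sum_const, Finset.card_univ, Fintype.card_fin, nsmul_eq_mul]
  obtain ⟨N0, hN0⟩ := Filter.eventually_atTop.1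
    ((hlim.eventually (gt_mem_nhds hlt)).and (eventually_gt_atTop 0))
  refine ⟨N0, fun N hN => ?_⟩
  rw [Real.dist_eq, sub_zero]
  exact lt_of_le_of_lt (s2 K hK2 N (hN0 N hN).2) (hN0 N hN).1

end

end Pool.Agent.Helper30.DX
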